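import Pool.Agent.SDQ.St
import Pool.Agent.SSF.Fin

/-!
# SDQ, Q117: the group `Z_3 × Z_39`
-/

set_option autoImplicit false

noncomputable section

open Finset Pool.Agent.Helper64.Rho Pool.Agent.SDG Pool.Agent.MDR Pool.Agent.SSC Pool.Agent.SSE Pool.Agent.SSF Pool.Agent.SNW
open scoped Classical Pointwise

namespace Pool.Agent.SDQ

private lemma Q117_low {G : Type} [AddCommGroup G] [Finite G] (hR : R2 G) (A : Finset G) (t : ℕ)
    (hA : SA A t) : cf 2 t ≤ (FS A id).card := by
  obtain ⟨h0, ht, hap, -⟩ := hA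
  rw [← ht]
  refine PAG_R2 G hR G A id ?_ ?_ hap
  · intro i hi h
    exact h0 ((show i = 0 from h) ▸ hi)
  · intro x
    refine (card_le_card (t := {x, -x}) ?_).trans card_le_two
    intro y hy
    rw [mem_filter] at hy
    rw [mem_insert, mem_singleton]
    exact hy.2

private lemma Q117_lam (Qd : St_Qd) {G : Type} [AddCommGroup G] [Finite G] (hR : R2 G)
    (A : Finset G) (t v j : ℕ) (hA : SA A t) (ht : 2 ≤ t) (hlb : LB G (t - 1) v)
    (hc : (FS A id).card < 2 * cf 2 (t - 1)) (hj : (FS A id).card ≤ v + j) :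
    ∀ a ∈ A, lam (FS A id) a ≤ j := by
  intro a ha
  obtain ⟨h1, h2⟩ := Qd G A t hR hA ht hc a ha
  have h3 := hlb _ h1
  omega

private lemma Q117_cf14 : cf 2 14 = 57 := by decide +kernel
private lemma Q117_cf15 : cf 2 15 = 65 := by decide +kernel
private lemma Q117_cf16 : cf 2 16 = 73 := by decide +kernel
private lemma Q117_c614 : cf 6 14 = 25 := by decide +kernel
private lemma Q117_c615 : cf 6 15 = 28 := by decide +kernel

private lemma Q117_s1 : ¬ (∑ v ∈ range 52, min (9 * 13) (2 * (v / 6) * 8 + 1) ≤ 52 ^ 2) := by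
  decide +kernel
private lemma Q117_s2 : ¬ (∑ v ∈ range 51, min (9 * 13) (2 * (v / 7) * 8 + 1) ≤ 51 ^ 2) := by
  decide +kernel
private lemma Q117_s3 : ¬ (∑ v ∈ range 44, min (9 * 13) (2 * (v / 6) * 9 + 1) ≤ 44 ^ 2) := by
  decide +kernel
private lemma Q117_s4 : ¬ (∑ v ∈ range 43, min (9 * 13) (2 * (v / 7) * 9 + 1) ≤ 43 ^ 2) := by
  decide +kernel

theorem thm_Q117 : St_Qd → St_Qm → St_Qr → St_Qa → St_Qc → St_Qs → St_Q117 := by
  intro Qd Qm Qr Qa Qc Qs G _ _ hQ
  have hR : R2 G := hQ.1
  have hN : Nat.card G = 9 * 13 := hQ.2.2.1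
  have hodd : Odd (Nat.card G) := by
    rw [hN]
    decide
  have h14 : LB G 14 59 := (Qm G 13 hQ).2.1 rfl
  have h15 : LB G 15 67 := by
    intro A hA
    by_contra hlt
    have hlow := Q117_low hR A 15 hA
    rw [Q117_cf15] at hlow
    have hD := (Qc G A 15 hodd hA.1 hA.2.1).1
    have h22 : (FS A id).card < 2 * cf 2 (15 - 1) := by
      show (FS A id).card < 2 * cf 2 14
      rw [Q117_cf14]
      omega
    have hcase : (FS A id).card = 65 ∨ (FS A id).card = 66 := by omega
    rcases hcase with hc | hc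
    · have hlam := Q117_lam Qd hR A 15 59 6 hA (by norm_num) h14 h22 (by omega)
      have h3 := Qr G A 13 15 6 hQ hA (by norm_num) hlam
        (by show (FS A id).card + 6 < 3 * cf 6 14; rw [Q117_c614]; omega) (by omega) (by omega) h22
      have h4 := (Qa G A 13 15 6 8 hQ hA h3 (by norm_num) (by norm_num) hlam (by omega)).2
      rw [hc] at h4
      exact Q117_s1 h4
    · have hlam := Q117_lam Qd hR A 15 59 7 hA (by norm_num) h14 h22 (by omega)
      have h3 := Qr G A 13 15 7 hQ hA (by norm_num) hlam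
        (by show (FS A id).card + 7 < 3 * cf 6 14; rw [Q117_c614]; omega) (by omega) (by omega) h22
      have h4 := (Qa G A 13 15 7 8 hQ hA h3 (by norm_num) (by norm_num) hlam (by omega)).2
      rw [hc] at h4
      exact Q117_s2 h4
  refine ⟨h15, ?_⟩
  intro A hA
  by_contra hlt
  have hlow := Q117_low hR A 16 hA
  rw [Q117_cf16] at hlow
  have h22 : (FS A id).card < 2 * cf 2 (16 - 1) := by
    show (FS A id).card < 2 * cf 2 15
    rw [Q117_cf15]
    omega
  have hcase : (FS A id).card = 73 ∨ (FS A id).card = 74 := by omega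
  by_cases hsym : ∀ a ∈ A, -a ∈ A
  · have hlam := Q117_lam Qd hR A 16 67 7 hA (by norm_num) h15 h22 (by omega)
    have h3 := Qr G A 13 16 7 hQ hA (by norm_num) hlam
      (by show (FS A id).card + 7 < 3 * cf 6 15; rw [Q117_c615]; omega) (by omega) (by omega) h22
    exact Qs G A 13 8 hQ hA (Or.inl ⟨rfl, rfl⟩) hsym h3 (by omega)
  · have hns : ∃ a ∈ A, -a ∉ A := by
      push Not at hsym
      exact hsym
    have hD := (Qc G A 16 hodd hA.1 hA.2.1).2 (by norm_num) hns
    rcases hcase with hc | hc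
    · have hlam := Q117_lam Qd hR A 16 67 6 hA (by norm_num) h15 h22 (by omega)
      have h3 := Qr G A 13 16 6 hQ hA (by norm_num) hlam
        (by show (FS A id).card + 6 < 3 * cf 6 15; rw [Q117_c615]; omega) (by omega) (by omega) h22
      have h4 := (Qa G A 13 16 6 9 hQ hA h3 (by norm_num) (by norm_num) hlam (by omega)).2
      rw [hc] at h4
      exact Q117_s3 h4
    · have hlam := Q117_lam Qd hR A 16 67 7 hA (by norm_num) h15 h22 (by omega)
      have h3 := Qr G A 13 16 7 hQ hA (by norm_num) hlam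
        (by show (FS A id).card + 7 < 3 * cf 6 15; rw [Q117_c615]; omega) (by omega) (by omega) h22
      have h4 := (Qa G A 13 16 7 9 hQ hA h3 (by norm_num) (by norm_num) hlam (by omega)).2
      rw [hc] at h4
      exact Q117_s4 h4

end Pool.Agent.SDQ
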