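import Pool.Agent.SDQ.St
import Pool.Agent.SSF.Fin

/-!
# SDQ Q153: the groups of order 153 (helper72)
-/

set_option autoImplicit false

noncomputable section

open Finset Pool.Agent.Helper64.Rho Pool.Agent.SDG Pool.Agent.MDR Pool.Agent.SSC Pool.Agent.SSE Pool.Agent.SSF Pool.Agent.SNW
open scoped Classical Pointwise

namespace Pool.Agent.SDQ

private theorem Q153_cap {G : Type} [AddCommGroup G] (A : Finset G) : Cap 2 A (id : G → G) := by
  intro x
  have h1 : (A.filter fun i => (id i : G) = x ∨ (id i : G) = -x) ⊆ {x, -x} := by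
    intro i hi
    rcases (mem_filter.1 hi).2 with h | h
    · rw [mem_insert]
      exact Or.inl h
    · rw [mem_insert, mem_singleton]
      exact Or.inr h
  exact (card_le_card h1).trans card_le_two

/-- the common part: no element of order 3 and `lam` at most `j` -/
private theorem Q153_step (hQd : St_Qd) (hQr : St_Qr) (G : Type) [AddCommGroup G] [Finite G]
    (hG : Q9 17 G) (A : Finset G) (t b j : ℕ) (hA : SA A t) (ht : 10 ≤ t) (hb : LB G (t - 1) b)
    (hj : (FS A id).card ≤ b + j)
    (h1 : (FS A id).card + j < 3 * cf 6 (t - 1)) (h2 : (FS A id).card + j < 9 * (t - 3))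
    (h3 : (FS A id).card + j < 9 * 17) (h4 : (FS A id).card < 2 * cf 2 (t - 1)) :
    (∀ a ∈ A, lam (FS A id) a ≤ j) ∧ ∀ a ∈ A, (3 : ℕ) • a ≠ 0 := by
  have hlam : ∀ a ∈ A, lam (FS A id) a ≤ j := by
    intro a ha
    obtain ⟨h5, h6⟩ := hQd G A t hG.1 hA (by omega) h4 a ha
    have h7 := hb _ h5
    omega
  exact ⟨hlam, hQr G A 17 t j hG hA ht hlam h1 h2 h3 h4⟩

theorem thm_Q153 : St_Qd → St_Qm → St_Qr → St_Qa → St_Qc → St_Qs → St_Q153 := by
  intro hQd hQm hQr hQa hQc hQs G _ _ hG
  have hb16 : LB G 16 75 := (hQm G 17 hG).2.2 rfl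
  have hodd : Odd (Nat.card G) := by
    rw [hG.2.2.1]
    decide
  have hlow : ∀ (A : Finset G) (t : ℕ), SA A t → cf 2 t ≤ (FS A id).card := by
    intro A t hA
    have h1 := SSF.PAG_R2 G hG.1 G A id (fun i hi h => hA.1 (by
      rw [← show i = 0 from h]
      exact hi)) (Q153_cap A) hA.2.2.1
    rwa [hA.2.1] at h1
  have c17 : cf 2 17 = 82 := by
    rw [SDG.thm_Nm1.2.2.1]
    norm_num
  have c18 : cf 2 18 = 91 := by
    rw [SDG.thm_Nm1.2.2.1]
    norm_num
  have c19 : cf 2 19 = 101 := by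
    rw [SDG.thm_Nm1.2.2.1]
    norm_num
  have c16 : cf 2 16 = 73 := by
    rw [SDG.thm_Nm1.2.2.1]
    norm_num
  have d16 : cf 6 16 = 31 := by simp [cf, Finset.sum_range_succ]
  have d17 : cf 6 17 = 34 := by simp [cf, Finset.sum_range_succ]
  have d18 : cf 6 18 = 37 := by simp [cf, Finset.sum_range_succ]
  have hb17 : LB G 17 84 := by
    intro A hA
    by_contra hcon
    push Not at hcon
    have h1 := hlow A 17 hA
    rw [c17] at h1
    have hD := (hQc G A 17 hodd hA.1 hA.2.1).1
    have h2 : (FS A id).card = 82 ∨ (FS A id).card = 83 := by omega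
    rcases h2 with h2 | h2
    · obtain ⟨h3, h4⟩ := Q153_step hQd hQr G hG A 17 75 7 hA (by omega) hb16 (by omega)
        (by rw [h2, show 17 - 1 = 16 from rfl, d16]; omega) (by omega) (by omega)
        (by rw [h2, show 17 - 1 = 16 from rfl, c16]; omega)
      have h5 := (hQa G A 17 17 7 9 hG hA h4 (by omega) (by omega) h3 hD).2
      rw [h2] at h5
      exact absurd h5 (by decide +kernel)
    · obtain ⟨h3, h4⟩ := Q153_step hQd hQr G hG A 17 75 8 hA (by omega) hb16 (by omega)
        (by rw [h2, show 17 - 1 = 16 from rfl, d16]; omega) (by omega) (by omega)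
        (by rw [h2, show 17 - 1 = 16 from rfl, c16]; omega)
      have h5 := (hQa G A 17 17 8 9 hG hA h4 (by omega) (by omega) h3 hD).2
      rw [h2] at h5
      exact absurd h5 (by decide +kernel)
  have hb18 : LB G 18 93 := by
    intro A hA
    by_contra hcon
    push Not at hcon
    have h1 := hlow A 18 hA
    rw [c18] at h1
    have h2 : (FS A id).card = 91 ∨ (FS A id).card = 92 := by omega
    have h34 : ∀ j : ℕ, (FS A id).card ≤ 84 + j → (FS A id).card + j ≤ 100 →
        (∀ a ∈ A, lam (FS A id) a ≤ j) ∧ ∀ a ∈ A, (3 : ℕ) • a ≠ 0 := by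
      intro j hj hj2
      exact Q153_step hQd hQr G hG A 18 84 j hA (by omega) hb17 hj
        (by rw [show 18 - 1 = 17 from rfl, d17]; omega) (by omega) (by omega)
        (by rw [show 18 - 1 = 17 from rfl, c17]; omega)
    have h3' : ∀ a ∈ A, (3 : ℕ) • a ≠ 0 := (h34 8 (by omega) (by omega)).2
    by_cases hsym : ∀ a ∈ A, -a ∈ A
    · exact hQs G A 17 9 hG hA (Or.inr ⟨rfl, rfl⟩) hsym h3' (by omega)
    · push Not at hsym
      have hD := (hQc G A 18 hodd hA.1 hA.2.1).2 rfl hsym
      rcases h2 with h2 | h2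
      · obtain ⟨h3, h4⟩ := h34 7 (by omega) (by omega)
        have h5 := (hQa G A 17 18 7 10 hG hA h4 (by omega) (by omega) h3 hD).2
        rw [h2] at h5
        exact absurd h5 (by decide +kernel)
      · obtain ⟨h3, h4⟩ := h34 8 (by omega) (by omega)
        have h5 := (hQa G A 17 18 8 10 hG hA h4 (by omega) (by omega) h3 hD).2
        rw [h2] at h5
        exact absurd h5 (by decide +kernel)
  refine ⟨hb17, hb18, ?_⟩
  intro A hA
  by_contra hcon
  push Not at hcon
  have h1 := hlow A 19 hA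
  rw [c19] at h1
  have hD := (hQc G A 19 hodd hA.1 hA.2.1).1
  have h2 : (FS A id).card = 101 := by omega
  obtain ⟨h3, h4⟩ := Q153_step hQd hQr G hG A 19 93 8 hA (by omega) hb18 (by omega)
    (by rw [h2, show 19 - 1 = 18 from rfl, d18]; omega) (by omega) (by omega)
    (by rw [h2, show 19 - 1 = 18 from rfl, c18]; omega)
  have h5 := (hQa G A 17 19 8 10 hG hA h4 (by omega) (by omega) h3 hD).2
  rw [h2] at h5
  exact absurd h5 (by decide +kernel)

end Pool.Agent.SDQ
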