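import Pool.Agent.SDQ.St

/-!
# SDQ: module Q99

The near-full case for `n = 99`.
-/

set_option autoImplicit false

noncomputable section

open Finset Pool.Agent.Helper64.Rho Pool.Agent.SDG Pool.Agent.MDR Pool.Agent.SSC Pool.Agent.SSE Pool.Agent.SSF Pool.Agent.SNW
open scoped Classical Pointwise

namespace Pool.Agent.SDQ

private theorem Q99_step (hd : St_Qd) (hr : St_Qr) (ha : St_Qa) (hc : St_Qc) (G : Type) [AddCommGroup G]
    [Finite G] (hQ : Q9 11 G) (t w v : ℕ) (ht : 10 ≤ t) (ht2 : (t + 1) / 2 ≤ 10)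
    (h1 : v < 2 * cf 2 (t - 1)) (h2 : v + max 1 (v - w) < 3 * cf 6 (t - 1)) (h3 : v + max 1 (v - w) < 9 * (t - 3))
    (h4 : v + max 1 (v - w) < 9 * 11) (hL : LB G (t - 1) w)
    (hnum : ∀ T ∈ range (v + 1), w ≤ T → (9 * 11 - T) ^ 2 <
      ∑ u ∈ range (9 * 11 - T), min (9 * 11) (2 * (u / max 1 (T - w)) * ((t + 1) / 2) + 1)) : LB G t (v + 1) := by
  intro A hA
  by_contra hcon
  have hT : (FS A id).card ≤ v := by omega
  have hd' := hd G A t hQ.1 hA (by omega) (by omega)
  have hne : A.Nonempty := by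
    rw [← Finset.card_pos, hA.2.1]
    omega
  obtain ⟨a₀, ha₀⟩ := hne
  have hw : w ≤ (FS A id).card := by
    have h5 := hL _ (hd' a₀ ha₀).1
    have h6 := (hd' a₀ ha₀).2
    omega
  have hlam : ∀ a ∈ A, lam (FS A id) a ≤ max 1 ((FS A id).card - w) := by
    intro a haA
    have h5 := hL _ (hd' a haA).1
    have h6 := (hd' a haA).2
    omega
  have hno := hr G A 11 t (max 1 ((FS A id).card - w)) hQ hA ht hlam (by omega) (by omega) (by omega) (by omega)
  have hodd : Odd (Nat.card G) := by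
    rw [hQ.2.2.1]
    decide
  have hD := (hc G A t hodd hA.1 hA.2.1).1
  have hfin := (ha G A 11 t (max 1 ((FS A id).card - w)) ((t + 1) / 2) hQ hA hno (by omega) ht2 hlam hD).2
  have hlt := hnum (FS A id).card (mem_range.2 (by omega)) hw
  exact absurd hfin (not_le.2 hlt)

theorem thm_Q99 (hd : St_Qd) (hm : St_Qm) (hr : St_Qr) (ha : St_Qa) (hc : St_Qc) : St_Q99 := by
  intro G _ _ hQ
  have h13 : LB G (14 - 1) 52 := (hm G 11 hQ).1 rfl
  have h14 : LB G 14 (58 + 1) := Q99_step hd hr ha hc G hQ 14 52 58 (by decide) (by decide) (by decide +kernel)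
    (by decide +kernel) (by decide) (by decide) h13 (by decide +kernel)
  have h15 : LB G 15 (65 + 1) := Q99_step hd hr ha hc G hQ 15 59 65 (by decide) (by decide) (by decide +kernel)
    (by decide +kernel) (by decide) (by decide) h14 (by decide +kernel)
  exact ⟨h14, h15⟩

end Pool.Agent.SDQ
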