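import Pool.Agent.SDQ.St
import Pool.Agent.Helper64.Rho.Olson

/-!
# SDQ: module Qa
-/

set_option autoImplicit false

noncomputable section

open Finset Pool.Agent.Helper64.Rho Pool.Agent.SDG Pool.Agent.MDR Pool.Agent.SSC Pool.Agent.SSE Pool.Agent.SSF Pool.Agent.SNW
open scoped Classical Pointwise

namespace Pool.Agent.SDQ

private theorem Qa_mem {G : Type} [AddCommGroup G] {A : Finset G} {y : G}
    (h : y ∈ (({0} : Finset G) ∪ (A ∪ A.image fun x => -x))) : y = 0 ∨ y ∈ A ∨ -y ∈ A := by
  rw [mem_union, mem_union, mem_singleton] at h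
  rcases h with h | h | h
  · exact Or.inl h
  · exact Or.inr (Or.inl h)
  · obtain ⟨a, ha, rfl⟩ := mem_image.mp h
    refine Or.inr (Or.inr ?_)
    rw [neg_neg]
    exact ha

private theorem Qa_mem' {G : Type} [AddCommGroup G] {A : Finset G} {y : G}
    (h : y = 0 ∨ y ∈ A ∨ -y ∈ A) : y ∈ (({0} : Finset G) ∪ (A ∪ A.image fun x => -x)) := by
  rw [mem_union, mem_union, mem_singleton]
  rcases h with h | h | h
  · exact Or.inl h
  · exact Or.inr (Or.inl h)
  · exact Or.inr (Or.inr (mem_image.mpr ⟨-y, h, neg_neg y⟩))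

theorem thm_Qa : St_Qg → St_Qv → St_Qa := by
  intro hQg hQv G _ _ A p t j J hQ hSA h3 hj hJ hlam hD
  have hcard : Nat.card G = 9 * p := hQ.2.2.1
  have key : ∀ X : Finset G, (∀ y, lam X y = lam (FS A id) y) →
      ∑ v ∈ range X.card, min (Nat.card G) (2 * (v / j) * J + 1) ≤ X.card ^ 2 := by
    intro X hX
    refine hQv G X (({0} : Finset G) ∪ (A ∪ A.image fun x => -x)) J j (Qa_mem' (Or.inl rfl))
      ?_ ?_ hD hj ?_ ?_
    · intro y hy
      rcases Qa_mem hy with h | h | h
      · exact Qa_mem' (Or.inl (by rw [h, neg_zero]))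
      · exact Qa_mem' (Or.inr (Or.inr (by rw [neg_neg]; exact h)))
      · exact Qa_mem' (Or.inr (Or.inl h))
    · rw [eq_top_iff, ← hSA.2.2.2]
      exact AddSubgroup.closure_mono fun a ha => Qa_mem' (Or.inr (Or.inl ha))
    · intro y hy
      rw [hX]
      rcases Qa_mem hy with h | h | h
      · rw [h, lam_zero]
        exact Nat.zero_le _
      · exact hlam y h
      · rw [← lam_neg]
        exact hlam _ h
    · intro H hH y hy hyH
      have h9 : Nat.card H ≤ 9 := by omega
      have hk := (hQg G p hQ).2.2 H h9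
      rcases Qa_mem hy with h | h | h
      · exact h
      · exact absurd (hk y hyH) (h3 y h)
      · exact absurd (hk (-y) (H.neg_mem hyH)) (h3 _ h)
  rw [← hcard]
  refine ⟨key _ fun y => rfl, ?_⟩
  have := Fintype.ofFinite G
  have h1 := key (FS A id)ᶜ fun y => lam_compl (FS A id) y
  rw [card_compl, ← Nat.card_eq_fintype_card] at h1
  exact h1

end Pool.Agent.SDQ
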