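import Pool.Agent.SDQ.St

/-!
# SDQ, module Qc (helper14): the symmetric set in odd order
-/

set_option autoImplicit false

noncomputable section

open Finset Pool.Agent.Helper64.Rho Pool.Agent.SDG Pool.Agent.MDR Pool.Agent.SSC Pool.Agent.SSE Pool.Agent.SSF Pool.Agent.SNW
open scoped Classical Pointwise

namespace Pool.Agent.SDQ

/-- in odd order `-x = x` only for `x = 0` -/
theorem Qc_neg {G : Type} [AddCommGroup G] [Finite G] (ho : Odd (Nat.card G)) (x : G) (h : -x = x) :
    x = 0 := by
  have h2 : (2 : ℕ) • x = 0 := by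
    rw [two_nsmul]
    nth_rewrite 1 [← h]
    exact neg_add_cancel x
  have h3 : addOrderOf x ∣ 2 := addOrderOf_dvd_of_nsmul_eq_zero h2
  have h4 : addOrderOf x ∣ Nat.card G := addOrderOf_dvd_natCard x
  have h5 : addOrderOf x ∣ 1 := by
    have h6 : Nat.Coprime 2 (Nat.card G) := (Nat.coprime_two_left).2 ho
    rw [← Nat.Coprime.gcd_eq_one h6]
    exact Nat.dvd_gcd h3 h4
  have h7 : addOrderOf x = 1 := Nat.dvd_one.1 h5
  exact AddMonoid.addOrderOf_eq_one_iff.1 h7

/-- a symmetric set without zero has an even number of elements in odd order -/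
theorem Qc_even {G : Type} [AddCommGroup G] [Finite G] (ho : Odd (Nat.card G)) (E : Finset G)
    (h0 : (0 : G) ∉ E) (hs : ∀ x ∈ E, -x ∈ E) : E.card % 2 = 0 := by
  have h1 : ∑ _x ∈ E, (1 : ZMod 2) = 0 := by
    refine Finset.sum_involution (fun x _ => -x) ?_ ?_ ?_ ?_
    · intro x _
      decide
    · intro x hx _ h2
      exact h0 (Qc_neg ho x h2 ▸ hx)
    · intro x hx
      exact hs x hx
    · intro x _
      exact neg_neg x
  rw [Finset.sum_const, nsmul_eq_mul, mul_one] at h1
  have h2 : 2 ∣ E.card := (ZMod.natCast_eq_zero_iff _ _).1 h1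
  omega

theorem thm_Qc : St_Qc := by
  intro G _ _ A t ho h0 hA
  have hdef : (({0} : Finset G) ∪ (A ∪ A.image fun x => -x)).card =
      (A ∪ A.image fun x => -x).card + 1 := by
    rw [Finset.card_union_of_disjoint, Finset.card_singleton]
    · omega
    · rw [Finset.disjoint_singleton_left]
      intro h
      rcases Finset.mem_union.1 h with h | h
      · exact h0 h
      · obtain ⟨y, hy, hy0⟩ := Finset.mem_image.1 h
        have : y = 0 := neg_eq_zero.1 hy0
        exact h0 (this ▸ hy)
  have hE0 : (0 : G) ∉ A ∪ A.image fun x => -x := by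
    intro h
    rcases Finset.mem_union.1 h with h | h
    · exact h0 h
    · obtain ⟨y, hy, hy0⟩ := Finset.mem_image.1 h
      have : y = 0 := neg_eq_zero.1 hy0
      exact h0 (this ▸ hy)
  have hEs : ∀ x ∈ A ∪ A.image fun x => -x, -x ∈ A ∪ A.image fun x => -x := by
    intro x hx
    rcases Finset.mem_union.1 hx with h | h
    · exact Finset.mem_union_right _ (Finset.mem_image_of_mem _ h)
    · obtain ⟨y, hy, rfl⟩ := Finset.mem_image.1 h
      refine Finset.mem_union_left _ ?_
      simpa using hy
  have hev := Qc_even ho _ hE0 hEs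
  have hle : A.card ≤ (A ∪ A.image fun x => -x).card :=
    Finset.card_le_card Finset.subset_union_left
  rw [hdef]
  constructor
  · omega
  · intro ht ⟨a, ha, hna⟩
    have hlt : A.card < (A ∪ A.image fun x => -x).card := by
      refine Finset.card_lt_card ⟨Finset.subset_union_left, ?_⟩
      intro hsub
      exact hna (hsub (Finset.mem_union_right _ (Finset.mem_image_of_mem _ ha)))
    omega

end Pool.Agent.SDQ
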