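import Pool.Agent.SDQ.St
import Pool.Agent.SSF.Fin

/-!
# SDQ, module Qd (helper14): removing an element of a generating set with few sums
-/

set_option autoImplicit false

noncomputable section

open Finset Pool.Agent.Helper64.Rho Pool.Agent.SDG Pool.Agent.MDR Pool.Agent.SSC Pool.Agent.SSE Pool.Agent.SSF Pool.Agent.SNW
open scoped Classical Pointwise

namespace Pool.Agent.SDQ

/-- a set is a family with `Cap 2` -/
theorem cap_id {G : Type} [AddCommGroup G] (A : Finset G) : Cap 2 A (id : G → G) := by
  intro x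
  have h1 : (A.filter fun i => id i = x ∨ id i = -x) ⊆ {x, -x} := by
    intro y hy
    rw [mem_insert, mem_singleton]
    exact (mem_filter.1 hy).2
  exact (card_le_card h1).trans card_le_two

theorem gen_id {G : Type} [AddCommGroup G] (A : Finset G) :
    gen A id = AddSubgroup.closure (A : Set G) := by
  unfold gen
  rw [Set.image_id]

theorem thm_Qd : St_Qd := by
  intro G _ _ A t hR hSA ht hx a ha
  obtain ⟨h0, hc, hA, hg⟩ := hSA
  have hgA : gen A id = ⊤ := by
    rw [gen_id]
    exact hg
  have hAe : Aper (FS (A.erase a) id) :=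
    (SDG.all_Ba1 G G id).2.1 A (A.erase a) (erase_subset _ _) hA
  have h0e : ∀ k ∈ A.erase a, id k ≠ (0 : G) := fun k hk h =>
    h0 ((show k = 0 from h) ▸ erase_subset _ _ hk)
  have hcard : (A.erase a).card = t - 1 := by
    rw [card_erase_of_mem ha, hc]
  have hge : gen (A.erase a) id = ⊤ := by
    rw [← hgA]
    apply (SDG.all_Ba1 G G id).2.2.2.2.2.1 A a ha
    by_contra hne
    have h3 := (SDG.all_Ba1 G G id).2.2.2.1 A a ha hne
    have h4 := SSF.PAG_R2 G hR G (A.erase a) id h0e (cap_id _) hAe
    rw [hcard] at h4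
    omega
  refine ⟨⟨fun h => h0 (erase_subset _ _ h), hcard, hAe, ?_⟩, ?_⟩
  · rw [← gen_id]
    exact hge
  · exact (SDG.all_Ba1 G G id).2.2.1 A a ha

end Pool.Agent.SDQ
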