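import Pool.Agent.SDQ.St

/-!
# SDQ, module Qg: elementary facts on the groups of order `9 p` (helper68)

Statement and proof: `St_Qg` in `SDQ/St.lean`.
-/

set_option autoImplicit false

noncomputable section

open Finset Pool.Agent.Helper64.Rho Pool.Agent.SDG Pool.Agent.MDR Pool.Agent.SSC Pool.Agent.SSE Pool.Agent.SSF Pool.Agent.SNW
open scoped Classical Pointwise

namespace Pool.Agent.SDQ

private theorem Qg_div (p d : ℕ) (hp : p = 11 ∨ p = 13 ∨ p = 17) (h : d ∣ 9 * p) :
    d ∈ ({1, 3, 9, p, 3 * p, 9 * p} : Finset ℕ) := by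
  rcases hp with rfl | rfl | rfl
  · have h1 : d ∈ Nat.divisors 99 := Nat.mem_divisors.2 ⟨h, by norm_num⟩
    have h2 : Nat.divisors 99 = {1, 3, 9, 11, 33, 99} := by decide +kernel
    rw [h2] at h1
    simpa using h1
  · have h1 : d ∈ Nat.divisors 117 := Nat.mem_divisors.2 ⟨h, by norm_num⟩
    have h2 : Nat.divisors 117 = {1, 3, 9, 13, 39, 117} := by decide +kernel
    rw [h2] at h1
    simpa using h1
  · have h1 : d ∈ Nat.divisors 153 := Nat.mem_divisors.2 ⟨h, by norm_num⟩
    have h2 : Nat.divisors 153 = {1, 3, 9, 17, 51, 153} := by decide +kernel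
    rw [h2] at h1
    simpa using h1

private theorem Qg_no9 (G : Type) [AddCommGroup G] [Finite G] (p : ℕ)
    (hcy : ¬ IsAddCyclic G) (hcard : Nat.card G = 9 * p) (hp : p = 11 ∨ p = 13 ∨ p = 17)
    (x : G) : addOrderOf x ≠ 9 := by
  intro hx
  have hpp : p.Prime := by rcases hp with rfl | rfl | rfl <;> norm_num
  haveI : Fact p.Prime := ⟨hpp⟩
  obtain ⟨y, hy⟩ := exists_prime_addOrderOf_dvd_card' (G := G) p (by rw [hcard]; exact ⟨9, by ring⟩)
  have hco : (addOrderOf x).Coprime (addOrderOf y) := by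
    rw [hx, hy]
    rcases hp with rfl | rfl | rfl <;> decide
  have h1 : addOrderOf (x + y) = addOrderOf x * addOrderOf y :=
    (AddCommute.all x y).addOrderOf_add_eq_mul_addOrderOf_of_coprime hco
  apply hcy
  apply isAddCyclic_of_addOrderOf_eq_card (x + y)
  rw [h1, hx, hy, hcard]

/-- the module Qg -/
theorem thm_Qg : St_Qg := by
  intro G _ _ p hQ
  obtain ⟨_, hcy, hcard, hp, _⟩ := hQ
  have hp0 : 0 < p := by rcases hp with rfl | rfl | rfl <;> norm_num
  have hpp : p.Prime := by rcases hp with rfl | rfl | rfl <;> norm_num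
  have h9 := Qg_no9 G p hcy hcard hp
  have hsub : ∀ K : AddSubgroup G, Nat.card K ∈ ({1, 3, 9, p, 3 * p, 9 * p} : Finset ℕ) := by
    intro K
    apply Qg_div p _ hp
    rw [← hcard]
    exact K.card_addSubgroup_dvd_card
  refine ⟨?_, hsub, ?_⟩
  · -- the exponent
    have hall : ∀ x : G, (3 * p) • x = 0 := by
      intro x
      apply addOrderOf_dvd_iff_nsmul_eq_zero.1
      have h1 : addOrderOf x ∣ 9 * p := by
        rw [← hcard]
        exact addOrderOf_dvd_natCard x
      have h2 := Qg_div p _ hp h1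
      have h3 : addOrderOf x ≠ 9 * p := by
        intro h
        apply hcy
        apply isAddCyclic_of_addOrderOf_eq_card x
        rw [h, hcard]
      simp only [Finset.mem_insert, Finset.mem_singleton] at h2
      rcases h2 with h | h | h | h | h | h
      · rw [h]; exact one_dvd _
      · rw [h]; exact ⟨p, rfl⟩
      · exact absurd h (h9 x)
      · rw [h]; exact ⟨3, by ring⟩
      · rw [h]
      · exact absurd h h3
    have hd1 : AddMonoid.exponent G ∣ 3 * p :=
      AddMonoid.exponent_dvd_of_forall_nsmul_eq_zero hall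
    have hd3 : 3 ∣ AddMonoid.exponent G := by
      haveI : Fact (Nat.Prime 3) := ⟨by norm_num⟩
      obtain ⟨y, hy⟩ := exists_prime_addOrderOf_dvd_card' (G := G) 3
        (by rw [hcard]; exact ⟨3 * p, by ring⟩)
      rw [← hy]
      exact AddMonoid.addOrder_dvd_exponent y
    have hdp : p ∣ AddMonoid.exponent G := by
      haveI : Fact (Nat.Prime p) := ⟨hpp⟩
      obtain ⟨y, hy⟩ := exists_prime_addOrderOf_dvd_card' (G := G) p
        (by rw [hcard]; exact ⟨9, by ring⟩)
      rw [← hy]
      exact AddMonoid.addOrder_dvd_exponent y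
    have hco : Nat.Coprime 3 p := by rcases hp with rfl | rfl | rfl <;> decide
    have hd2 : 3 * p ∣ AddMonoid.exponent G := hco.mul_dvd_of_dvd_of_dvd hd3 hdp
    have he : AddMonoid.exponent G = 3 * p := Nat.dvd_antisymm hd1 hd2
    unfold l0
    rw [he, hcard]
    rcases hp with rfl | rfl | rfl <;> norm_num
  · intro K hK x hx
    have h1 := hsub K
    simp only [Finset.mem_insert, Finset.mem_singleton] at h1
    have h2 : Nat.card K ∣ 9 := by
      have hp11 : 11 ≤ p := by rcases hp with rfl | rfl | rfl <;> norm_num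
      rcases h1 with h | h | h | h | h | h
      · rw [h]; norm_num
      · rw [h]; norm_num
      · rw [h]
      · omega
      · omega
      · omega
    have h3 : addOrderOf x ∣ 9 := by
      have h4 : addOrderOf (⟨x, hx⟩ : K) ∣ Nat.card K := addOrderOf_dvd_natCard _
      rw [AddSubgroup.addOrderOf_mk] at h4
      exact h4.trans h2
    have h5 : addOrderOf x ∣ 3 := by
      have h6 : addOrderOf x ∣ 3 ^ 2 := h3
      obtain ⟨k, hk, hk2⟩ := (Nat.dvd_prime_pow Nat.prime_three).1 h6
      interval_cases k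
      · rw [hk2]; norm_num
      · rw [hk2]; norm_num
      · exact absurd (by rw [hk2]; norm_num) (h9 x)
    exact addOrderOf_dvd_iff_nsmul_eq_zero.1 h5

end Pool.Agent.SDQ
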