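import Pool.Agent.SDQ.St
import Pool.Agent.SSF.KSF

/-!
# SDQ, [Qk]: a full coset of a subgroup of order 9, `|G| = 153`
-/

set_option autoImplicit false

noncomputable section

open Finset Pool.Agent.Helper64.Rho Pool.Agent.SDG Pool.Agent.MDR Pool.Agent.SSC Pool.Agent.SSE Pool.Agent.SSF Pool.Agent.SNW
open scoped Classical Pointwise

namespace Pool.Agent.SDQ

private theorem Qk_mem {G : Type} [AddCommGroup G] {k : ℕ} {A : Finset G} {z : G} :
    z ∈ ks k A ↔ ∃ U : Finset G, U ⊆ A ∧ U.card = k ∧ ∑ x ∈ U, x = z := by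
  unfold ks
  rw [Finset.mem_image]
  constructor
  · rintro ⟨U, hU, h⟩
    rw [Finset.mem_powersetCard] at hU
    exact ⟨U, hU.1, hU.2, h⟩
  · rintro ⟨U, h1, h2, h3⟩
    exact ⟨U, Finset.mem_powersetCard.2 ⟨h1, h2⟩, h3⟩

/-- the sums of `k` members of `c + K` are in `k c + K` -/
private theorem Qk_cls {G : Type} [AddCommGroup G] {K : AddSubgroup G} {c : G} {C : Finset G}
    (hC : ∀ x ∈ C, x - c ∈ K) {k : ℕ} {z : G} (hz : z ∈ ks k C) :
    (QuotientAddGroup.mk z : G ⧸ K) = k • (QuotientAddGroup.mk c : G ⧸ K) := by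
  rw [Qk_mem] at hz
  obtain ⟨U, h1, h2, rfl⟩ := hz
  have h3 : ∑ x ∈ U, x - k • c = ∑ x ∈ U, (x - c) := by
    rw [Finset.sum_sub_distrib, Finset.sum_const, h2]
  have h4 : ∑ x ∈ U, x - k • c ∈ K := by
    rw [h3]
    exact K.sum_mem fun x hx => hC x (h1 hx)
  have h5 : (QuotientAddGroup.mk (∑ x ∈ U, x - k • c) : G ⧸ K) = 0 :=
    (QuotientAddGroup.eq_zero_iff _).2 h4
  have h6 : (QuotientAddGroup.mk (∑ x ∈ U, x - k • c) : G ⧸ K) =
      (QuotientAddGroup.mk (∑ x ∈ U, x) : G ⧸ K) - k • (QuotientAddGroup.mk c : G ⧸ K) := rfl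
  rw [h6] at h5
  exact sub_eq_zero.1 h5

/-- at least nine sums -/
private theorem Qk_big {G : Type} [AddCommGroup G] [Finite G]
    (hodd : ∀ x : G, x + x = 0 → x = 0) (C : Finset G) (hC : C.card = 9) {k : ℕ}
    (h1 : 1 ≤ k) (h8 : k ≤ 8) : 9 ≤ (ks k C).card := by
  rcases Pool.Agent.SSF.thm_KSF G C k h1 (by omega) with h | ⟨a0, L, hL, hA⟩
  · omega
  · exfalso
    obtain ⟨x, hx, y, hy, hxy⟩ := Finset.one_lt_card.1 (show 1 < C.card by omega)
    have e1 := hodd _ (hL _ ((hA x).1 hx))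
    have e2 := hodd _ (hL _ ((hA y).1 hy))
    exact hxy (by rw [sub_eq_zero.1 e1, sub_eq_zero.1 e2])

private theorem Qk_sub {G : Type} [AddCommGroup G] {k : ℕ} {A C : Finset G} (h : C ⊆ A) :
    ks k C ⊆ FS A id := by
  intro z hz
  rw [Qk_mem] at hz
  obtain ⟨U, h1, h2, h3⟩ := hz
  unfold FS
  rw [Finset.mem_image]
  exact ⟨U, Finset.mem_powerset.2 (h1.trans h), h3⟩

/-- **[Qk]** -/
theorem thm_Qk : St_Qg → St_Qk := by
  intro _ G _ _ A K c hQ hA hK hc hfull
  have hn : Nat.card G = 153 := hQ.2.2.1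
  have hodd : ∀ x : G, x + x = 0 → x = 0 := by
    intro x hx
    have h2 : addOrderOf x ∣ 2 := addOrderOf_dvd_of_nsmul_eq_zero (by rw [two_nsmul]; exact hx)
    have h3 : addOrderOf x ∣ 153 := hn ▸ addOrderOf_dvd_natCard x
    have h4 : addOrderOf x ∣ Nat.gcd 2 153 := Nat.dvd_gcd h2 h3
    have h5 : Nat.gcd 2 153 = 1 := by norm_num
    rw [h5] at h4
    exact AddMonoid.addOrderOf_eq_one_iff.1 (Nat.dvd_one.1 h4)
  have hidx : K.index = 17 := by
    have h := K.card_mul_index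
    rw [hK, hn] at h
    omega
  -- the class of `c`
  set q : G ⧸ K := QuotientAddGroup.mk c with hq
  have hq0 : q ≠ 0 := fun h => hc ((QuotientAddGroup.eq_zero_iff _).1 h)
  have hcardQ : Nat.card (G ⧸ K) = 17 := hidx
  have hord : addOrderOf q = 17 := by
    have h1 : addOrderOf q ∣ 17 := hcardQ ▸ addOrderOf_dvd_natCard q
    rcases (Nat.dvd_prime (by norm_num : Nat.Prime 17)).1 h1 with h | h
    · exact absurd (AddMonoid.addOrderOf_eq_one_iff.1 h) hq0
    · exact h
  have h17 : (17 : ℕ) • q = 0 := by rw [← hord]; exact addOrderOf_nsmul_eq_zero q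
  -- the coset
  have hfin : (((fun x => x + c) '' (K : Set G)) : Set G).Finite := Set.toFinite _
  set C : Finset G := hfin.toFinset with hCdef
  have hCm : ∀ x : G, x ∈ C ↔ x - c ∈ K := by
    intro x
    rw [hCdef, Set.Finite.mem_toFinset, Set.mem_image]
    constructor
    · rintro ⟨y, hy, rfl⟩
      simpa using hy
    · intro h
      exact ⟨x - c, h, sub_add_cancel x c⟩
  have hCc : C.card = 9 := by
    rw [hCdef, ← Set.ncard_eq_toFinset_card _ hfin,
      Set.ncard_image_of_injective _ (add_left_injective c)]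
    rw [← hK]
    rfl
  have hCA : C ⊆ A := fun x hx => hfull x ((hCm x).1 hx)
  set C' : Finset G := C.image fun x => -x with hC'
  have hC'c : C'.card = 9 := by
    rw [hC', Finset.card_image_of_injective _ neg_injective, hCc]
  have hC'A : C' ⊆ A := by
    intro x hx
    rw [hC', Finset.mem_image] at hx
    obtain ⟨y, hy, rfl⟩ := hx
    exact hA y (hCA hy)
  have hC'm : ∀ x ∈ C', x - (-c) ∈ K := by
    intro x hx
    rw [hC', Finset.mem_image] at hx
    obtain ⟨y, hy, rfl⟩ := hx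
    have h := K.neg_mem ((hCm y).1 hy)
    have e : -y - -c = -(y - c) := by abel
    rw [e]
    exact h
  let F : ℕ → Finset G := fun j => if j ≤ 8 then ks j C else ks (17 - j) C'
  have hFc : ∀ j ∈ Finset.Icc 1 16, 9 ≤ (F j).card := by
    intro j hj
    rw [Finset.mem_Icc] at hj
    by_cases h : j ≤ 8
    · simp only [F, if_pos h]
      exact Qk_big hodd C hCc hj.1 h
    · simp only [F, if_neg h]
      exact Qk_big hodd C' hC'c (by omega) (by omega)
  have hFm : ∀ j ∈ Finset.Icc 1 16, ∀ z ∈ F j, (QuotientAddGroup.mk z : G ⧸ K) = j • q := by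
    intro j hj z hz
    rw [Finset.mem_Icc] at hj
    by_cases h : j ≤ 8
    · simp only [F, if_pos h] at hz
      exact Qk_cls (fun x hx => (hCm x).1 hx) hz
    · simp only [F, if_neg h] at hz
      have h1 := Qk_cls hC'm hz
      have h2 : (QuotientAddGroup.mk (-c) : G ⧸ K) = -q := rfl
      rw [h1, h2, smul_neg]
      have h3 : (17 - j) • q + j • q = 0 := by
        rw [← add_nsmul, Nat.sub_add_cancel (by omega : j ≤ 17)]
        exact h17
      exact neg_eq_of_add_eq_zero_right h3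
  have hFd : ∀ i ∈ Finset.Icc 1 16, ∀ j ∈ Finset.Icc 1 16, i ≠ j → Disjoint (F i) (F j) := by
    intro i hi j hj hij
    rw [Finset.disjoint_left]
    intro z hz hz'
    have h := (hFm i hi z hz).symm.trans (hFm j hj z hz')
    have h' := nsmul_eq_nsmul_iff_modEq.1 h
    rw [hord] at h'
    rw [Finset.mem_Icc] at hi hj
    exact hij (Nat.ModEq.eq_of_lt_of_lt h' (by omega) (by omega))
  have hFs : ∀ j ∈ Finset.Icc 1 16, F j ⊆ FS A id := by
    intro j hj
    by_cases h : j ≤ 8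
    · simp only [F, if_pos h]
      exact Qk_sub hCA
    · simp only [F, if_neg h]
      exact Qk_sub hC'A
  have h1 : (Finset.Icc 1 16).biUnion F ⊆ FS A id := Finset.biUnion_subset.2 hFs
  have h2 := Finset.card_le_card h1
  rw [Finset.card_biUnion hFd] at h2
  have h3 : ∑ _j ∈ Finset.Icc 1 16, 9 ≤ ∑ j ∈ Finset.Icc 1 16, (F j).card :=
    Finset.sum_le_sum hFc
  have h4 : ∑ _j ∈ Finset.Icc 1 16, 9 = 144 := by simp
  omega

end Pool.Agent.SDQ
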