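import Pool.Agent.SDQ.St

/-!
# SDQ, module Qm (helper14): first bounds from `M1P`
-/

set_option autoImplicit false

noncomputable section

open Finset Pool.Agent.Helper64.Rho Pool.Agent.SDG Pool.Agent.MDR Pool.Agent.SSC Pool.Agent.SSE Pool.Agent.SSF Pool.Agent.SNW
open scoped Classical Pointwise

namespace Pool.Agent.SDQ

theorem Qm_num : cf 2 13 = 50 ∧ cf 2 14 = 57 ∧ cf 2 16 = 73 ∧ pn 13 = 86 ∧ pn 14 = 100 ∧ pn 16 = 130 ∧
    jj 13 = 7 ∧ jj 14 = 7 ∧ jj 16 = 8 := by decide +kernel

/-- `M1P` for a set -/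
theorem Qm_set {G : Type} [AddCommGroup G] [Finite G] {g : ℕ} (hM : M1P G g) {A : Finset G} {t : ℕ}
    (hA : SA A t) : min (pn t) (cf 2 t + g) ≤ (FS A id).card ∨
      Nat.card G ≤ (FS A id).card + jj t * (jj t - 1) := by
  obtain ⟨h0, hc, ha, hg⟩ := hA
  have hcap : Cap 2 A (id : G → G) := by
    intro x
    have h1 : (A.filter fun i => id i = x ∨ id i = -x) ⊆ {x, -x} := by
      intro y hy
      rw [mem_insert, mem_singleton]
      exact (mem_filter.1 hy).2
    exact (card_le_card h1).trans card_le_two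
  have hgA : gen A id = ⊤ := by
    unfold gen
    rw [Set.image_id]
    exact hg
  have h := hM G A id (fun i hi h => h0 ((show i = 0 from h) ▸ hi)) hcap ha hgA
  rwa [hc] at h

theorem thm_Qm : St_Qg → St_Qm := by
  intro hQg G _ _ p hQ
  have hl : l0 G = 3 := (hQg G p hQ).1
  obtain ⟨-, -, hn, -, hM⟩ := hQ
  rw [hl] at hM
  obtain ⟨e1, e2, e3, e4, e5, e6, e7, e8, e9⟩ := Qm_num
  refine ⟨?_, ?_, ?_⟩
  · intro hp A hA
    rw [hp] at hn
    have h := Qm_set hM hA
    rw [e1, e4, e7, hn] at h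
    rcases h with h | h
    · rcases min_le_iff.1 h with h3 | h3 <;> omega
    · omega
  · intro hp A hA
    rw [hp] at hn
    have h := Qm_set hM hA
    rw [e2, e5, e8, hn] at h
    rcases h with h | h
    · rcases min_le_iff.1 h with h3 | h3 <;> omega
    · omega
  · intro hp A hA
    rw [hp] at hn
    have h := Qm_set hM hA
    rw [e3, e6, e9, hn] at h
    rcases h with h | h
    · rcases min_le_iff.1 h with h3 | h3 <;> omega
    · omega

end Pool.Agent.SDQ
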