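import Mathlib
import Pool.Agent.SSF.St
import Pool.Agent.SNG.M1a

/-!
# SDQ: the groups `Z_3 × Z_33`, `Z_3 × Z_39`, `Z_3 × Z_51` in the near-full case (MP_ec93d3_co)

Architect helper97 (method: helper22, Pool/Agent/SNS/Sx.lean, `no_27`, `no_81`).  `T = FS A id`, `n = |G|`, `D = {0} ∪ A ∪ -A`, `i D = it D i`.

Every `St_X` is a statement, its proof is in the docstring.  A module `Pool/Agent/SDQ/X.lean` proves `thm_X : St_A → ... → St_X` with exactly the hypotheses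
listed after `from`, in this order.  All older facts are theorems: `import Pool.Agent.SSF.Fin` (PAG: `SSF.PAG_R2`; `SSF.PR_all`; `SSF.all_CCF`, see `all_PR` in SSF/Main.lean
for `C2N`; `SDG.all_Ba1`, `SDG.all_Kn`, `SDG.all_Sm`, `SDG.all_Gr`, `SDG.all_Ds`, `SDG.all_main` (`TT`)).
-/

set_option autoImplicit false

noncomputable section

open Finset Pool.Agent.Helper64.Rho Pool.Agent.SDG Pool.Agent.MDR Pool.Agent.SSC Pool.Agent.SSE Pool.Agent.SSF Pool.Agent.SNW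
open scoped Classical Pointwise

namespace Pool.Agent.SDQ

/-- the three groups (`M1P`: Pool/Agent/SNW/W2.lean) -/
def Q9 (p : ℕ) (G : Type) [AddCommGroup G] [Finite G] : Prop :=
  R2 G ∧ ¬ IsAddCyclic G ∧ Nat.card G = 9 * p ∧ (p = 11 ∨ p = 13 ∨ p = 17) ∧ M1P G (l0 G - 1)

/-- a generating set with `t` elements and aperiodic sums -/
def SA {G : Type} [AddCommGroup G] (A : Finset G) (t : ℕ) : Prop :=
  (0 : G) ∉ A ∧ A.card = t ∧ Aper (FS A id) ∧ AddSubgroup.closure (A : Set G) = ⊤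

/-- all of them have at least `v` sums -/
def LB (G : Type) [AddCommGroup G] (t v : ℕ) : Prop := ∀ A : Finset G, SA A t → v ≤ (FS A id).card

/-- **Qg** (0.8 h).  Facts.  (1) `l0 G = |G| / exp G = 3`: the exponent divides `9 p`, it is a multiple of `3` and `p`, it is not `9 p` (noncyclic); if it is not divisible by 9 it is `3 p`.  (If some element had order 9, then an element of order `p` added to it would have order `9 p`.)
(2) orders of subgroups divide `9 p`.  (3) in a subgroup of order at most 9 all elements are killed by 3: its order is 1, 3 or 9 (`p ≥ 11`), there is no element of order 9. -/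
def St_Qg : Prop :=
  ∀ (G : Type) [AddCommGroup G] [Finite G] (p : ℕ), Q9 p G → l0 G = 3 ∧
    (∀ K : AddSubgroup G, Nat.card K ∈ ({1, 3, 9, p, 3 * p, 9 * p} : Finset ℕ)) ∧
    (∀ K : AddSubgroup G, Nat.card K ≤ 9 → ∀ x ∈ K, (3 : ℕ) • x = 0)

/-- **Qd** (0.5 h).  Removing an element.  `|T| < 2 cf 2 (t - 1)`.  Proof.  `SDG.all_Ba1`, as in SNS/Sx.lean, `erase_low`: if `a ∉ gen (A.erase a)` then `|T| = 2 |FS (A.erase a)| ≥ 2 cf 2 (t-1)` (SSF.PAG_R2).  So `A.erase a` generates `G`. -/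
def St_Qd : Prop :=
  ∀ (G : Type) [AddCommGroup G] [Finite G] (A : Finset G) (t : ℕ), R2 G → SA A t → 2 ≤ t → (FS A id).card < 2 * cf 2 (t - 1) →
    ∀ a ∈ A, SA (A.erase a) (t - 1) ∧ (FS (A.erase a) id).card + lam (FS A id) a ≤ (FS A id).card

/-- **Qm** (0.5 h, from Qg).  First bounds from `M1P` (`l0 G - 1 = 2`): `min (pn t) (cf 2 t + 2) ≤ |T|` or `n ≤ |T| + J (J-1)`.  `n = 99`, `t = 13`: `cf 2 13 + 2 = 52`, `99 - 42 = 57`.  `n = 117`, `t = 14`: `cf 2 14 + 2 = 59`, `117 - 42 = 75`.  `n = 153`, `t = 16`: `73 + 2`, `153 - 56 = 97`.  (`Cap 2 A id` for sets: Sx.lean.) -/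
def St_Qm : Prop :=
  ∀ (G : Type) [AddCommGroup G] [Finite G] (p : ℕ), Q9 p G → (p = 11 → LB G 13 52) ∧ (p = 13 → LB G 14 59) ∧ (p = 17 → LB G 16 75)

/-- **Qr** (1.5 h, from Qg).  No element of order 3.  `lam T a ≤ j` for `a ∈ A`; `|T| + j < min (3 cf 6 (t-1), 9 (t-3), n)`, `|T| < 2 cf 2 (t-1)`.
Proof.  Let `h ∈ A`, `3 h = 0`, `R = {0, h, -h}`, `T0 = FS (A.erase h)`, `T = T0 ∪ (T0 + h)`.  `-h ∉ A` (otherwise `FS {h, -h} = R` is `R`-periodic and so is `T`).  A coset `γ` of `R` that meets `T` has at least two elements of `T` (`x ∈ T0`: `x, x + h`; `x ∈ T0 + h`: `x, x - h`); if exactly two, `{y, y + h}`, then exactly one of its elements (`y + h`) leaves `T` when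
`h` is added.  So `|T + R| = |T| + lam T h ≤ |T| + j`.  Let `P ≥ R` be the group of periods of `T + R`; `T / P` is aperiodic in `G / P`, `|T + R| = |P| |T / P|`.  By Qg (2) `|P| ∈ {3, 9, 3 p, 9 p}`.
`|P| = 3`, `P = R`: the `t - 1` other members are not in `R`, at most 6 of them are in `± (x + R)`, so `|T / R| ≥ cf 6 (t-1)` (`TT 3 (t-1)`, SDG.all_main): `3 cf 6 (t-1) ≤ |T| + j`: contradiction.
`|P| = 9`: `Y = FS (A ∩ P)` is aperiodic in `P`, so `|Y| ≤ 8` and `|A ∩ P| ≤ 4` (`|Y| ≥ cf 2 |A ∩ P|`, `cf 2 5 = 10`); `t - 4` members outside: `|T / P| ≥ t - 3` (SDG.all_Sm): `9 (t-3) ≤ |T| + j`: contradiction.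
`|P| = 3 p` (index 3): `T / P` is an aperiodic set in a group of order 3, at least one member is outside `P`; two members outside give all three classes (periodic); so exactly one: `T = T_P ∪ (T_P + a)`, `|T| = 2 |FS (A.erase a)| ≥ 2 cf 2 (t-1)`: contradiction.  `|P| = 9 p`: `T + R = G`: `n ≤ |T| + j`: contradiction. -/
def St_Qr : Prop :=
  ∀ (G : Type) [AddCommGroup G] [Finite G] (A : Finset G) (p t j : ℕ), Q9 p G → SA A t → 10 ≤ t → (∀ a ∈ A, lam (FS A id) a ≤ j) →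
    (FS A id).card + j < 3 * cf 6 (t - 1) → (FS A id).card + j < 9 * (t - 3) → (FS A id).card + j < 9 * p → (FS A id).card < 2 * cf 2 (t - 1) →
      ∀ a ∈ A, (3 : ℕ) • a ≠ 0

/-- **Qv** (1 h).  Averaging with growth, any finite group.
Proof.  By `SDG.all_Gr`: `|i D| ≥ min (n, 2 i J + 1)` for all `i` (otherwise there is a small subgroup with a nonzero element of `D`).  `lam X y ≤ i j` for `y ∈ i D` (`lam_add`), so `cnt X v ≥ |(v / j) D|`; `∑_{v < |X|} cnt X v = |X|^2` (Helper64.Rho.sum_cnt; see SDG/Av.lean). -/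
def St_Qv : Prop :=
  ∀ (G : Type) [AddCommGroup G] [Finite G] (X D : Finset G) (J j : ℕ), (0 : G) ∈ D → (∀ y ∈ D, -y ∈ D) → AddSubgroup.closure (D : Set G) = ⊤ →
    2 * J + 1 ≤ D.card → 1 ≤ j → (∀ y ∈ D, lam X y ≤ j) → (∀ H : AddSubgroup G, Nat.card H + 1 ≤ J → ∀ y ∈ D, y ∈ H → y = 0) →
      ∑ v ∈ range X.card, min (Nat.card G) (2 * (v / j) * J + 1) ≤ X.card ^ 2

/-- **Qa** (0.8 h, from Qg, Qv).  Application.  No element of `A` has order 3, `lam T a ≤ j`, `J ≤ 10`, and `D = {0} ∪ A ∪ -A` has at least `2 J + 1` elements.  Then Qv for `X = T` and for the complement of `T` (`lam_compl`): a subgroup with `|H| + 1 ≤ J` has at most 9 elements, all killed by 3 (Qg (3)), so it contains no element of `D` except `0`. -/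
def St_Qa : Prop :=
  ∀ (G : Type) [AddCommGroup G] [Finite G] (A : Finset G) (p t j J : ℕ), Q9 p G → SA A t → (∀ a ∈ A, (3 : ℕ) • a ≠ 0) → 1 ≤ j → J ≤ 10 →
    (∀ a ∈ A, lam (FS A id) a ≤ j) → 2 * J + 1 ≤ (({0} : Finset G) ∪ (A ∪ A.image fun x => -x)).card →
      ∑ v ∈ range (FS A id).card, min (9 * p) (2 * (v / j) * J + 1) ≤ (FS A id).card ^ 2 ∧
      ∑ v ∈ range (9 * p - (FS A id).card), min (9 * p) (2 * (v / j) * J + 1) ≤ (9 * p - (FS A id).card) ^ 2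

/-- **Qc** (0.6 h).  The symmetric set, odd order.  `|D| ≥ 2 ((t+1)/2) + 1`; if `t` is even and `A ≠ -A`: `|D| ≥ t + 3`.
Proof.  `n` is odd, `0 ∉ A`: `D \ 0 = A ∪ -A` is a disjoint union of pairs `{x, -x}`, `x ≠ -x`; `A` has at most two elements in each pair, so there are at least `(t+1)/2` pairs; if there are exactly `t / 2` pairs (`t` even), every pair is contained in `A`. -/
def St_Qc : Prop :=
  ∀ (G : Type) [AddCommGroup G] [Finite G] (A : Finset G) (t : ℕ), Odd (Nat.card G) → (0 : G) ∉ A → A.card = t →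
    2 * ((t + 1) / 2) + 1 ≤ (({0} : Finset G) ∪ (A ∪ A.image fun x => -x)).card ∧
    (t % 2 = 0 → (∃ a ∈ A, -a ∉ A) → t + 3 ≤ (({0} : Finset G) ∪ (A ∪ A.image fun x => -x)).card)

/-- **Qk** (1 h, from Qg).  A full coset.  `K` of order 9, `c ∉ K`, `c + K ⊆ A` up to signs (`A = -A`): more than 92 sums, `n = 153`.
Proof.  `G / K` has order 17, the classes `k c`, `|k| ≤ 8`, are different.  `A ⊇ c + K` (if `x ∈ c + K` is a member or `- x` is, both are, as `A = - A`).  The sums of `k` different elements of `c + K`, `1 ≤ k ≤ 8`, fill `k c + K`: SSF.all_KSF (`|ks k (c + K)| ≥ 9`; its second alternative is impossible: `x + x = 0` only for `x = 0` in odd order).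
`-A = A`: also `- k c + K`, `1 ≤ k ≤ 8`.  So `|T| ≥ 16 * 9 = 144`. -/
def St_Qk : Prop :=
  ∀ (G : Type) [AddCommGroup G] [Finite G] (A : Finset G) (K : AddSubgroup G) (c : G), Q9 17 G → (∀ a ∈ A, -a ∈ A) → Nat.card K = 9 → c ∉ K →
    (∀ x : G, x - c ∈ K → x ∈ A) → 93 ≤ (FS A id).card

/-- **Qs** (2 h, from Qg, Qd, Qk).  Symmetric sets.  `A = -A`, `t = 2 l`, `(p, l) = (13, 8)` or `(17, 9)`, no element of order 3: `|T| ≤ 2 + l (l+1)` is impossible.
Proof.  `u ⊆ A` with exactly one element of each pair `{x, -x}` (`x ≠ -x`), `|u| = l`; `X = FS u id`, `T = X + FS (A \ u) id`, and `FS (A \ u) id = - X` (`A \ u = -u`).  `X` is aperiodic (SDG.all_Ba1), `2 |X| ≤ |T| + 1 ≤ 3 + l (l+1)` (SDG.all_Kn (1)), so `2 |X| ≤ 2 + l (l+1) ≤ n`.  `C2N l` (SSF.all_CCF etc., see SSF.all_PR) for `u`, `id`: `l^2 + 2 l ≤ n`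
(`80 ≤ 117`, `99 ≤ 153`).  Its hypotheses: `AE u id` (SDG.all_Ba1 (5)), `gen u id = ⊤` (`A = u ∪ -u`).  `Sep`: `M ≠ ⊤`; `|outs u id M| ≥ 1`; if it is 1, `A ∩ M` has `2 l - 2` elements and at least `cf 2 (2l-2)` sums (SSF.PAG_R2), `T ⊇ FS (A ∩ M) ∪ (FS (A ∩ M) + x)`, disjoint: `|T| ≥ 2 cf 2 (2l-2) = 114` resp. `146`: contradiction.
`DC u id`: `K ≠ ⊥`, `c + c ∉ K`; the two sets in the definition are disjoint subsets of `u` (`c ∉ K`), so `|K| ≤ l ≤ 9`, `|K| ∈ {3, 9}`; `|K| = 9` only if `l = 9`, `p = 17`, and then all members are in `K` or `± (c + K)`; not in `K` (Qg (3)); so `±(c + K)` contains nine elements of `u`, pairwise not `±`: `c + K ⊆ ± u ⊆ A` (`c + K` has nine elements): Qk: contradiction.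
Conclusion of `C2N l`: `4 + l (l+1) ≤ 2 |X|`: contradiction; `Exc`: a member in a group of order 3: contradiction (no element of order 3); `Gam`: `|u| = 5`: contradiction. -/
def St_Qs : Prop :=
  ∀ (G : Type) [AddCommGroup G] [Finite G] (A : Finset G) (p l : ℕ), Q9 p G → SA A (2 * l) → ((p = 13 ∧ l = 8) ∨ (p = 17 ∧ l = 9)) → (∀ a ∈ A, -a ∈ A) →
    (∀ a ∈ A, (3 : ℕ) • a ≠ 0) → (FS A id).card ≤ 2 + l * (l + 1) → False

/-- **Q99** (1 h, from Qd, Qm, Qr, Qa, Qc).  `p = 11`, `n = 99`.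
Proof.  `t = 14`: `|T| ≥ cf 2 14 = 57` (SSF.PAG_R2); suppose `|T| ∈ {57, 58}`.  Qd, Qm (`LB 13 52`): `lam T a ≤ |T| - 52 = 5` resp. `6`.  Qr (`3 cf 6 13 = 66`, `9 * 11 = 99`): no element of order 3.  Qc: `J = 7`.  Qa, complement, `x = 42` resp. `41`: `∑_{v < 42} min 99 (14 (v/5) + 1) = 2198 > 42^2 = 1764`; `∑_{v < 41} min 99 (14 (v/6) + 1) = 1721 > 1681`: contradiction (`decide`).
`t = 15`: suppose `|T| = 65 = cf 2 15`; `lam T a ≤ 65 - 59 = 6`; `3 cf 6 14 = 75`; `J = 8`, `x = 34`: `∑_{v < 34} min 99 (16 (v/6) + 1) = 1314 > 1156`. -/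
def St_Q99 : Prop := ∀ (G : Type) [AddCommGroup G] [Finite G], Q9 11 G → LB G 14 59 ∧ LB G 15 66

/-- **Q117** (1.2 h, from Qd, Qm, Qr, Qa, Qc, Qs).  `p = 13`, `n = 117`.
Proof.  `t = 15`, `|T| ∈ {65, 66}`: `lam T a ≤ |T| - 59 = 6, 7`; Qr (`3 cf 6 14 = 75`); `J = 8`: `x = 52`: `∑_{v < 52} min 117 (16 (v/6) + 1) = 3204 > 2704`; `x = 51`: `∑_{v<51} min 117 (16 (v/7) + 1) = 2627 > 2601`.  `t = 16`, `|T| ∈ {73, 74}`: `lam T a ≤ |T| - 67 = 6, 7`; Qr (`3 cf 6 15 = 84`, `84 > 74 + 7`); `A = -A`: Qs (`l = 8`);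
otherwise `|D| ≥ 19` (Qc), `J = 9`: `x = 44`: `∑_{v<44} min 117 (18 (v/6) + 1) > 1936`; `x = 43`: `∑_{v<43} min 117 (18 (v/7) + 1) = 2041 > 1849`. -/
def St_Q117 : Prop := ∀ (G : Type) [AddCommGroup G] [Finite G], Q9 13 G → LB G 15 67 ∧ LB G 16 75

/-- **Q153** (1.2 h, from Qd, Qm, Qr, Qa, Qc, Qs).  `p = 17`, `n = 153`.
Proof.  `t = 17`, `|T| ∈ {82, 83}`: `lam T a ≤ |T| - 75 = 7, 8`; Qr (`3 cf 6 16 = 93 > 91`); `J = 9`: `x = 71`: `∑_{v<71} min 153 (18 (v/7) + 1) = 5823 > 5041`; `x = 70`: `∑_{v<70} min 153 (18 (v/8) + 1) = 4966 > 4900`.  `t = 18`, `|T| ∈ {91, 92}`: `lam T a ≤ |T| - 84 = 7, 8`; Qr (`3 cf 6 17 = 102 > 100`); `A = -A`: Qs (`l = 9`);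
otherwise `|D| ≥ 21`, `J = 10`: `x = 62`: `∑_{v<62} min 153 (20 (v/7) + 1) > 3844`; `x = 61`: `∑_{v<61} min 153 (20 (v/8) + 1) = 4121 > 3721`.  `t = 19`, `|T| = 101`: `lam T a ≤ 101 - 93 = 8`; Qr (`3 cf 6 18 = 111 > 109`); `J = 10`, `x = 52`: `∑_{v<52} min 153 (20 (v/8) + 1) = 2932 > 2704`. -/
def St_Q153 : Prop := ∀ (G : Type) [AddCommGroup G] [Finite G], Q9 17 G → LB G 17 84 ∧ LB G 18 93 ∧ LB G 19 102

end Pool.Agent.SDQ
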