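import Mathlib
import Pool.Agent.SDQ.St
import Pool.Agent.SSF.Fin

/-!
# SDQ: Qr, no element of order 3
-/

set_option autoImplicit false

noncomputable section

open Finset Pool.Agent.Helper64.Rho Pool.Agent.SDG Pool.Agent.MDR Pool.Agent.SSC Pool.Agent.SSE Pool.Agent.SSF Pool.Agent.SNW
open scoped Classical Pointwise

namespace Pool.Agent.SDQ

private theorem Qr_FS1 {G : Type} [AddCommGroup G] (a : G) : FS ({a} : Finset G) id = {0, a} := by
  have h : ({a} : Finset G) = insert a ∅ := by rw [insert_empty_eq]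
  rw [h, FS_insert (Finset.notMem_empty a), FS_empty]
  ext x
  simp

private theorem Qr_neg {G : Type} [AddCommGroup G] [Finite G] (A : Finset G) (hAp : Aper (FS A id)) (a : G)
    (ha : a ∈ A) (ha0 : a ≠ 0) (h3 : (3 : ℕ) • a = 0) : -a ∉ A := by
  intro hna
  have h2 : a + a = -a := by
    have : a + a + a = 0 := by
      rw [← h3, show (3 : ℕ) = 2 + 1 from rfl, add_nsmul, two_nsmul, one_nsmul]
    exact eq_neg_of_add_eq_zero_left this
  have hne : a ≠ -a := by
    intro h
    have h4 : a + a = a := by rw [h2]; exact h.symm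
    exact ha0 (by simpa using h4)
  have hsub : insert a {-a} ⊆ A := by
    intro x hx
    rw [mem_insert, mem_singleton] at hx
    rcases hx with rfl | rfl
    · exact ha
    · exact hna
  have hap2 : Aper (FS (insert a {-a}) (id : G → G)) := (all_Ba1 G G id).2.1 A _ hsub hAp
  apply ha0
  apply hap2
  have hnm : a ∉ ({-a} : Finset G) := by
    rw [mem_singleton]
    exact hne
  rw [FS_insert hnm, Qr_FS1]
  intro x hx
  have hx' : x = 0 ∨ x = a ∨ x = -a := by
    rw [mem_union, mem_image, mem_insert, mem_singleton] at hx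
    rcases hx with (h | h) | ⟨y, hy, rfl⟩
    · exact Or.inl h
    · exact Or.inr (Or.inr h)
    · rw [mem_insert, mem_singleton] at hy
      rcases hy with rfl | rfl
      · right; left; simp
      · left; simp
  rw [mem_union, mem_image, mem_insert, mem_singleton]
  rcases hx' with rfl | rfl | rfl
  · right
    exact ⟨0, by simp, by simp⟩
  · left
    right
    exact h2
  · left
    left
    simp

private theorem Qr_mem {G : Type} [AddCommGroup G] (a x : G) (h3 : (3 : ℕ) • a = 0)
    (hx : x ∈ AddSubgroup.zmultiples a) : x = 0 ∨ x = a ∨ x = -a := by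
  obtain ⟨k, rfl⟩ := AddSubgroup.mem_zmultiples_iff.1 hx
  have h3z : (3 : ℤ) • a = 0 := by
    rw [← h3]
    exact natCast_zsmul a 3
  have hk : k • a = (k % 3) • a := by
    conv_lhs => rw [← Int.mul_ediv_add_emod k 3]
    rw [add_zsmul, mul_comm, mul_zsmul, h3z, zsmul_zero, zero_add]
  rw [hk]
  have hlt : k % 3 = 0 ∨ k % 3 = 1 ∨ k % 3 = 2 := by omega
  rcases hlt with h | h | h
  · left; rw [h, zero_zsmul]
  · right; left; rw [h, one_zsmul]
  · right; right
    rw [h]
    have e : (2 : ℤ) • a = (3 : ℤ) • a - a := by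
      rw [show (3 : ℤ) = 2 + 1 from rfl, add_zsmul, one_zsmul, add_sub_cancel_right]
    rw [e, h3z, zero_sub]

theorem thm_Qr : St_Qg → St_Qr := by
  intro hQg G _ _ A p t j hQ9 hSA ht hlam h3 h9 h9p h2 a ha h3a
  obtain ⟨hA0, hAc, hAp, hAg⟩ := hSA
  obtain ⟨-, hord, -⟩ := hQg G p hQ9
  obtain ⟨hR2, hncyc, hn, hp, -⟩ := hQ9
  have h0 : ∀ i ∈ A, id i ≠ (0 : G) := fun i hi h => hA0 ((show i = 0 from h) ▸ hi)
  have ha0 : a ≠ 0 := h0 a ha
  have hcap : Cap 2 A (id : G → G) := by
    intro x
    have h1 : (A.filter fun i => id i = x ∨ id i = -x) ⊆ {x, -x} := by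
      intro y hy
      rw [mem_insert, mem_singleton]
      exact (mem_filter.1 hy).2
    exact (card_le_card h1).trans card_le_two
  obtain ⟨-, hBaB, -, hBaD, -, -, -⟩ := all_Ba1 G G id
  have hna : -a ∉ A := Qr_neg A hAp a ha ha0 h3a
  set R := AddSubgroup.zmultiples a with hRdef
  have haR : a ∈ R := AddSubgroup.mem_zmultiples a
  have haord : addOrderOf a = 3 := by
    have : Fact (Nat.Prime 3) := ⟨Nat.prime_three⟩
    exact addOrderOf_eq_prime h3a ha0
  have hRcard : Nat.card R = 3 := by rw [hRdef, Nat.card_zmultiples, haord]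
  have hfil : (A.filter fun i => id i ∈ R) = {a} := by
    ext x
    rw [mem_filter, mem_singleton]
    constructor
    · rintro ⟨hxA, hxR⟩
      rcases Qr_mem a x h3a hxR with h | h | h
      · exact absurd h (h0 x hxA)
      · exact h
      · rw [h] at hxA
        exact absurd hxA hna
    · rintro rfl
      exact ⟨ha, haR⟩
  have hgenR : gen (A.filter fun i => id i ∈ R) id = R := by
    rw [hfil]
    unfold gen
    rw [coe_singleton, Set.image_singleton, id_eq, ← AddSubgroup.zmultiples_eq_closure]
  have hPc := (all_Pc G G A id R j h0 hAp hgenR (fun i hi _ => hlam i hi)).1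
  have hc2 : (FS (A.filter fun i => id i ∈ R) (id : G → G)).card = 2 := by
    rw [hfil, Qr_FS1]
    exact card_pair (Ne.symm ha0)
  rw [hRcard, hc2, show 3 - 2 = 1 from rfl, mul_one] at hPc
  -- the periods
  obtain ⟨P, hP⟩ := P1_per (st (FS A id) R)
  have hRP : R ≤ P := by
    intro g hg
    rw [hP]
    intro x hx
    obtain ⟨b, hb, hx⟩ := P1_mem_st.1 hx
    refine P1_mem_st.2 ⟨b, hb, ?_⟩
    have e : x + g - b = (x - b) + g := by abel
    rw [e]
    exact R.add_mem hx hg
  have hstP : st (FS A id) P = st (FS A id) R := P1_st (FS A id) R P P hRP le_rfl hP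
  obtain ⟨-, hQ2, hQ3, hQ4, hQ5⟩ := all_Qu G G A id P
  have hAper0 : Aper (FS (A.filter fun i => id i ∉ P) (fun i => (QuotientAddGroup.mk (id i) : G ⧸ P))) := by
    apply hQ3
    intro g hg
    rw [hstP] at hg
    exact (hP g).2 hg
  have hAper : Aper (@FS G (G ⧸ P) _ (fun a b => Classical.propDecidable (a = b)) (A.filter fun i => id i ∉ P)
      (fun i => (QuotientAddGroup.mk (id i) : G ⧸ P))) := P1_aper _ _ _ _ hAper0
  rw [hstP] at hQ2
  have hdvd : 3 ∣ Nat.card P := by
    rw [← hRcard]
    exact AddSubgroup.card_dvd_of_le hRP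
  have hsplit : (A.filter fun i => id i ∈ P).card + (A.filter fun i => id i ∉ P).card = t := by
    rw [← hAc]
    exact Finset.card_filter_add_card_filter_not (s := A) (fun i => id i ∈ P)
  have hSm := (all_Sm (G ⧸ P) G (A.filter fun i => id i ∉ P)
    (fun i => (QuotientAddGroup.mk (id i) : G ⧸ P)) hQ5 hAper).1
  have hmain := (all_main (A.filter fun i => id i ∉ P).card).2
  obtain ⟨Q, hQdef⟩ : ∃ Q, Q = (@FS G (G ⧸ P) _ (fun a b => Classical.propDecidable (a = b))
    (A.filter fun i => id i ∉ P) (fun i => (QuotientAddGroup.mk (id i) : G ⧸ P))).card := ⟨_, rfl⟩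
  rw [← hQdef] at hSm
  have hQ2' : Nat.card P * Q = (st (FS A id) R).card := by
    rw [hQdef, ← hQ2]
    exact congrArg (fun z => Nat.card P * z) (P1_card _ _ _ _)
  have hcase : Nat.card P = 3 ∨ Nat.card P = 9 ∨ Nat.card P = 3 * p ∨ Nat.card P = 9 * p := by
    have h := hord P
    simp only [mem_insert, mem_singleton] at h
    rcases hp with rfl | rfl | rfl <;> omega
  rcases hcase with hc | hc | hc | hc
  · -- order 3
    have hPR : R = P := AddSubgroup.eq_of_le_of_card_ge hRP (by rw [hc, hRcard])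
    have hs1 : (A.filter fun i => id i ∈ P).card = 1 := by
      rw [← hPR, hfil, card_singleton]
    have hs2 : (A.filter fun i => id i ∉ P).card = t - 1 := by omega
    have hcapQ := hQ4 hcap
    rw [hc] at hcapQ
    have h5 := hmain 3 (by norm_num) (G ⧸ P) G (A.filter fun i => id i ∉ P)
      (fun i => (QuotientAddGroup.mk (id i) : G ⧸ P)) rfl hQ5 hcapQ hAper
    rw [← hQdef, hs2, show 2 * 3 = 6 from rfl] at h5
    rw [hc] at hQ2'
    omega
  · -- order 9
    have hsub : (A.filter fun i => id i ∈ P) ⊆ A := filter_subset _ _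
    have hYap : Aper (FS (A.filter fun i => id i ∈ P) (id : G → G)) := hBaB A _ hsub hAp
    have hPb : P ≠ ⊥ := by
      intro h
      rw [h, AddSubgroup.card_bot] at hc
      omega
    have hY1 := (all_Kn G).2.2.2 (FS (A.filter fun i => id i ∈ P) id) P ⟨0, zero_mem_FS _ _⟩ hPb
      (fun x hx => FS_subset_of_mem (M := P) (fun i hi => (mem_filter.1 hi).2) hx) hYap
    have hY2 := PAG_R2 G hR2 G (A.filter fun i => id i ∈ P) id (fun i hi => h0 i (hsub hi))
      (fun x => (card_le_card (filter_subset_filter _ hsub)).trans (hcap x)) hYap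
    have hs4 : (A.filter fun i => id i ∈ P).card ≤ 4 := by
      by_contra hcon
      have h5 := all_Nm1.2.2.2.1 2 5 _ (show 5 ≤ (A.filter fun i => id i ∈ P).card by omega)
      have h10 : cf 2 5 = 10 := by decide +kernel
      omega
    rw [hc] at hQ2'
    have h6 : t - 3 ≤ Q := by omega
    omega
  · -- index 3
    exfalso
    have hp0 : 0 < p := by rcases hp with rfl | rfl | rfl <;> norm_num
    have hq3 : Nat.card (G ⧸ P) = 3 := by
      have h := AddSubgroup.card_eq_card_quotient_mul_card_addSubgroup P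
      rw [hn, hc] at h
      have e : Nat.card (G ⧸ P) * (3 * p) = 3 * (3 * p) := by
        rw [← h]
        ring
      exact Nat.eq_of_mul_eq_mul_right (by positivity) e
    have hT : (⊤ : AddSubgroup (G ⧸ P)) ≠ ⊥ := by
      intro h
      have h7 : Nat.card (⊤ : AddSubgroup (G ⧸ P)) = Nat.card (⊥ : AddSubgroup (G ⧸ P)) := by rw [h]
      rw [AddSubgroup.card_top, AddSubgroup.card_bot, hq3] at h7
      omega
    have h7 := (all_Kn (G ⧸ P)).2.2.2 (@FS G (G ⧸ P) _ (fun a b => Classical.propDecidable (a = b))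
      (A.filter fun i => id i ∉ P) (fun i => (QuotientAddGroup.mk (id i) : G ⧸ P))) ⊤
      ⟨0, @zero_mem_FS G (G ⧸ P) _ (fun a b => Classical.propDecidable (a = b)) _ _⟩ hT
      (fun x _ => AddSubgroup.mem_top _) hAper
    rw [← hQdef, AddSubgroup.card_top, hq3] at h7
    have hle1 : (A.filter fun i => id i ∉ P).card ≤ 1 := by omega
    have hPtop : P ≠ ⊤ := by
      intro h
      rw [h, AddSubgroup.card_top, hn] at hc
      omega
    have hex : ∃ b ∈ A, b ∉ P := by
      by_contra hcon
      push Not at hcon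
      apply hPtop
      rw [eq_top_iff, ← hAg, AddSubgroup.closure_le]
      intro x hx
      exact hcon x (mem_coe.1 hx)
    obtain ⟨b, hb, hbP⟩ := hex
    have huniq : ∀ x ∈ A.erase b, x ∈ P := by
      intro x hx
      by_contra hxP
      have hxb : x ≠ b := ne_of_mem_erase hx
      have h8 : ({x, b} : Finset G) ⊆ A.filter fun i => id i ∉ P := by
        intro y hy
        rw [mem_insert, mem_singleton] at hy
        rcases hy with rfl | rfl
        · exact mem_filter.2 ⟨mem_of_mem_erase hx, hxP⟩
        · exact mem_filter.2 ⟨hb, hbP⟩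
      have h9' := card_le_card h8
      rw [card_pair hxb] at h9'
      omega
    have hgle : gen (A.erase b) (id : G → G) ≤ P := by
      unfold gen
      rw [AddSubgroup.closure_le]
      rintro _ ⟨i, hi, rfl⟩
      exact huniq i (mem_coe.1 hi)
    have h10 := hBaD A b hb (fun h => hbP (hgle h))
    have hsube : A.erase b ⊆ A := erase_subset _ _
    have h11 := PAG_R2 G hR2 G (A.erase b) id (fun i hi => h0 i (hsube hi))
      (fun x => (card_le_card (filter_subset_filter _ hsube)).trans (hcap x)) (hBaB A _ hsube hAp)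
    rw [card_erase_of_mem hb, hAc] at h11
    omega
  · -- everything
    rw [hc] at hQ2'
    have hQ1 : 1 ≤ Q := by omega
    have h12 : 9 * p * 1 ≤ 9 * p * Q := Nat.mul_le_mul_left _ hQ1
    omega

end Pool.Agent.SDQ
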