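import Pool.Agent.SDQ.St
import Pool.Agent.SSF.Fin

/-!
# SDQ: module Qs, symmetric sets (helper7)
-/

set_option autoImplicit false

noncomputable section

open Finset Pool.Agent.Helper64.Rho Pool.Agent.SDG Pool.Agent.MDR Pool.Agent.SSC Pool.Agent.SSE Pool.Agent.SSF Pool.Agent.SNW
open scoped Classical Pointwise

namespace Pool.Agent.SDQ

theorem Qs_C2N (l : ℕ) (hl : 4 ≤ l) : C2N l :=
  (all_CCF all_GRO (fun l hl => (Pool.Agent.SSE.all_CC l hl fun n _ => Pool.Agent.SSE.all_PFE n).1)
    l hl fun n _ => PR_all n).2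

theorem Qs_num : cf 2 14 = 57 ∧ cf 2 16 = 73 := by decide +kernel

theorem Qs_half (G : Type) [AddCommGroup G] [Finite G] (A : Finset G)
    (h2 : ∀ x : G, x + x = 0 → x = 0) (h0 : (0 : G) ∉ A) (hs : ∀ a ∈ A, -a ∈ A) :
    ∃ u ⊆ A, (∀ a ∈ A, a ∈ u ∨ -a ∈ u) ∧ (∀ a ∈ u, -a ∉ u) ∧ 2 * u.card = A.card := by
  have := Fintype.ofFinite G
  let e := Fintype.equivFin G
  have hne : ∀ a ∈ A, a ≠ -a := by
    intro a ha h
    apply h0
    have h1 : a + a = 0 := by
      nth_rewrite 2 [h]
      exact add_neg_cancel a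
    rwa [h2 a h1] at ha
  let u := A.filter fun a => e a < e (-a)
  have hu1 : ∀ a ∈ A, a ∈ u ∨ -a ∈ u := by
    intro a ha
    rcases lt_trichotomy (e a) (e (-a)) with h | h | h
    · exact Or.inl (mem_filter.2 ⟨ha, h⟩)
    · exact absurd (e.injective h) (hne a ha)
    · refine Or.inr (mem_filter.2 ⟨hs a ha, ?_⟩)
      rwa [neg_neg]
  have hu2 : ∀ a ∈ u, -a ∉ u := by
    intro a ha h
    have h1 := (mem_filter.1 ha).2
    have h3 := (mem_filter.1 h).2
    rw [neg_neg] at h3
    exact absurd h3 (not_lt.2 h1.le)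
  refine ⟨u, filter_subset _ _, hu1, hu2, ?_⟩
  have h4 : (A.filter fun a => ¬ e a < e (-a)).card = u.card := by
    refine card_bij (fun a _ => -a) ?_ ?_ ?_
    · intro a ha
      obtain ⟨ha1, ha2⟩ := mem_filter.1 ha
      rcases hu1 a ha1 with h | h
      · exact absurd (mem_filter.1 h).2 ha2
      · exact h
    · intro a _ b _ h
      exact neg_injective h
    · intro b hb
      refine ⟨-b, mem_filter.2 ⟨hs b (mem_filter.1 hb).1, fun h => ?_⟩, neg_neg b⟩
      have h1 := (mem_filter.1 hb).2
      rw [neg_neg] at h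
      exact absurd h (not_lt.2 h1.le)
  have h5 := card_filter_add_card_filter_not (s := A) (fun a => e a < e (-a))
  rw [h4] at h5
  change u.card + u.card = A.card at h5
  omega

theorem thm_Qs : St_Qg → St_Qd → St_Qk → St_Qs := by
  intro hQg _ hQk G _ _ A p l hQ hSA hpl hs h3 hT
  obtain ⟨hl0, hKo, hK3⟩ := hQg G p hQ
  obtain ⟨hR, hcyc, hn, hp, hM⟩ := hQ
  obtain ⟨h0, hc, hA, hg⟩ := hSA
  have := Fintype.ofFinite G
  have hodd : Odd (Nat.card G) := by
    rw [hn]
    rcases hpl with ⟨rfl, -⟩ | ⟨rfl, -⟩ <;> decide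
  have h2 : ∀ x : G, x + x = 0 → x = 0 := by
    intro x hx
    have h1 : addOrderOf x ∣ 2 := addOrderOf_dvd_of_nsmul_eq_zero (by rw [two_nsmul]; exact hx)
    have h4 : addOrderOf x ∣ Nat.card G := addOrderOf_dvd_natCard x
    have h5 : addOrderOf x ∣ 1 := by
      have h6 := Nat.dvd_gcd h1 h4
      rwa [(Nat.coprime_two_left.2 hodd).gcd_eq_one] at h6
    rw [← AddMonoid.addOrderOf_eq_one_iff]
    exact Nat.dvd_one.1 h5
  obtain ⟨u, huA, hu1, hu2, hu3⟩ := Qs_half G A h2 h0 hs
  have hul : u.card = l := by omega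
  have hl9 : l ≤ 9 := by omega
  have hl8 : 8 ≤ l := by omega
  have hu0 : ∀ i ∈ u, (id i : G) ≠ 0 := fun i hi h => h0 ((show i = 0 from h) ▸ huA hi)
  -- the sums of `A`
  have hneg : FS (A \ u) (id : G → G) = (FS u (id : G → G)).image fun x => -x := by
    ext x
    rw [mem_FS, mem_image]
    constructor
    · rintro ⟨t, ht, rfl⟩
      refine ⟨∑ i ∈ t.image fun x => -x, id i, mem_FS.2 ⟨_, ?_, rfl⟩, ?_⟩
      · intro y hy
        obtain ⟨z, hz, rfl⟩ := mem_image.1 hy
        obtain ⟨hz1, hz2⟩ := mem_sdiff.1 (ht hz)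
        exact (hu1 z hz1).resolve_left hz2
      · rw [sum_image (fun a _ b _ h => neg_injective h), ← sum_neg_distrib]
        exact sum_congr rfl fun i _ => neg_neg i
    · rintro ⟨y, hy, rfl⟩
      obtain ⟨t, ht, rfl⟩ := mem_FS.1 hy
      refine ⟨t.image fun x => -x, ?_, ?_⟩
      · intro y hy
        obtain ⟨z, hz, rfl⟩ := mem_image.1 hy
        exact mem_sdiff.2 ⟨hs z (huA (ht hz)), hu2 z (ht hz)⟩
      · rw [sum_image (fun a _ b _ h => neg_injective h), ← sum_neg_distrib]
        rfl
  have hcardX : (FS (A \ u) (id : G → G)).card = (FS u (id : G → G)).card := by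
    rw [hneg, card_image_of_injective _ neg_injective]
  have hXA : Aper (FS u (id : G → G)) := (all_Ba1 G G id).2.1 A u huA hA
  have hsum : FS A (id : G → G) = FS u id + FS (A \ u) id := by
    rw [← (all_Ba1 G G id).1 u (A \ u) disjoint_sdiff, union_sdiff_of_subset huA]
  have hK1 := (all_Kn G).1 (FS u (id : G → G)) (FS (A \ u) id) ⟨0, zero_mem_FS _ _⟩
    ⟨0, zero_mem_FS _ _⟩ (hsum ▸ hA)
  rw [← hsum, hcardX] at hK1
  have hll : 2 ∣ l * (l + 1) := (Nat.even_mul_succ_self l).two_dvd
  have hX2 : 2 * (FS u (id : G → G)).card ≤ 2 + l * (l + 1) := by omega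
  -- the hypotheses of the engine
  have hAE : AE u (id : G → G) := by
    refine ⟨⟨hu0, fun x => ?_⟩, fun i hi h => hu0 i hi (h2 i h)⟩
    rw [card_le_one]
    intro a ha b hb
    obtain ⟨ha1, ha2⟩ := mem_filter.1 ha
    obtain ⟨hb1, hb2⟩ := mem_filter.1 hb
    simp only [id] at ha2 hb2
    rcases ha2 with rfl | rfl
    · rcases hb2 with rfl | rfl
      · rfl
      · exact absurd hb1 (hu2 _ ha1)
    · rcases hb2 with rfl | rfl
      · exact absurd ha1 (hu2 _ hb1)
      · rfl
  have hgen : gen u (id : G → G) = ⊤ := by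
    unfold gen
    rw [Set.image_id, eq_top_iff, ← hg, AddSubgroup.closure_le]
    intro a ha
    rcases hu1 a ha with h | h
    · exact AddSubgroup.subset_closure h
    · have := (AddSubgroup.closure (u : Set G)).neg_mem (AddSubgroup.subset_closure h)
      rwa [neg_neg] at this
  have hcap : Cap 2 A (id : G → G) := by
    intro x
    have h1 : (A.filter fun i => id i = x ∨ id i = -x) ⊆ {x, -x} := by
      intro y hy
      rw [mem_insert, mem_singleton]
      exact (mem_filter.1 hy).2
    exact (card_le_card h1).trans card_le_two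
  have hT92 : (FS A (id : G → G)).card ≤ 92 ∧ (l = 8 → (FS A (id : G → G)).card ≤ 74) := by
    rcases hpl with ⟨-, rfl⟩ | ⟨-, rfl⟩ <;> omega
  have hSep : Sep u (id : G → G) := by
    intro M hM _
    by_contra hcon
    have hcon' : (outs u (id : G → G) M).card ≤ 1 := by omega
    rcases Nat.lt_or_ge (outs u (id : G → G) M).card 1 with h1 | h1
    · apply hM
      rw [eq_top_iff, ← hgen]
      unfold gen
      rw [Set.image_id, AddSubgroup.closure_le]
      intro a ha
      by_contra h4
      have h5 : a ∈ outs u (id : G → G) M := mem_filter.2 ⟨ha, h4⟩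
      have h6 := card_pos.2 ⟨a, h5⟩
      omega
    · obtain ⟨x, hx⟩ := card_eq_one.1 (le_antisymm hcon' h1)
      have hxu : x ∈ outs u (id : G → G) M := hx ▸ mem_singleton_self x
      obtain ⟨hx1, hx2⟩ := mem_filter.1 hxu
      have hxA : x ∈ A := huA hx1
      have hxn : -x ∈ A := hs x hxA
      have hne : x ≠ -x := fun h => hu2 x hx1 (h ▸ hx1)
      have hx3 : x ∈ A.erase (-x) := mem_erase.2 ⟨hne, hxA⟩
      have h5 : (id x : G) ∉ gen ((A.erase (-x)).erase x) id := by
        intro h6
        apply hx2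
        have h7 : gen ((A.erase (-x)).erase x) (id : G → G) ≤ M := by
          unfold gen
          rw [Set.image_id, AddSubgroup.closure_le]
          intro a ha
          have ha1 : a ∈ (A.erase (-x)).erase x := ha
          obtain ⟨ha2, ha3⟩ := mem_erase.1 ha1
          obtain ⟨ha4, ha5⟩ := mem_erase.1 ha3
          by_contra h8
          rcases hu1 a ha5 with h9 | h9
          · have h10 : a ∈ outs u (id : G → G) M := mem_filter.2 ⟨h9, h8⟩
            rw [hx, mem_singleton] at h10
            exact ha2 h10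
          · have h10 : -a ∈ outs u (id : G → G) M := mem_filter.2 ⟨h9, fun h11 => h8 (by
              have := M.neg_mem h11
              rwa [id, neg_neg] at this)⟩
            rw [hx, mem_singleton] at h10
            exact ha4 (by rw [← h10, neg_neg])
        exact h7 h6
      have h6 := (all_Ba1 G G id).2.2.2.1 (A.erase (-x)) x hx3 h5
      have h7 := (all_Ba1 G G id).2.2.1 A (-x) hxn
      have h8 : Aper (FS ((A.erase (-x)).erase x) (id : G → G)) :=
        (all_Ba1 G G id).2.1 A _ ((erase_subset _ _).trans (erase_subset _ _)) hA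
      have h9 := PAG_R2 G hR G ((A.erase (-x)).erase x) id
        (fun k hk h => h0 ((show k = 0 from h) ▸ erase_subset _ _ (erase_subset _ _ hk)))
        (fun y => (card_le_card (filter_subset_filter _
          ((erase_subset _ _).trans (erase_subset _ _)))).trans (hcap y)) h8
      have h10 : ((A.erase (-x)).erase x).card = 2 * l - 2 := by
        rw [card_erase_of_mem hx3, card_erase_of_mem hxn, hc]
        omega
      rw [h10] at h9
      obtain ⟨e1, e2⟩ := Qs_num
      rcases hpl with ⟨-, rfl⟩ | ⟨-, rfl⟩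
      · norm_num at h9
        rw [e1] at h9
        have := hT92.2 rfl
        omega
      · norm_num at h9
        rw [e2] at h9
        have := hT92.1
        omega
  have hDC : DC u (id : G → G) := by
    intro K c hK hcc hle
    by_contra h4
    have hdis : Disjoint (u.filter fun i => (id i : G) - c ∈ K ∨ id i + c ∈ K) (ins u id K) := by
      rw [disjoint_left]
      intro i hi1 hi2
      have h5 := (mem_filter.1 hi2).2
      apply hcc
      rcases (mem_filter.1 hi1).2 with h6 | h6
      · have h7 : c ∈ K := by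
          have := K.sub_mem h5 h6
          rwa [sub_sub_cancel] at this
        exact K.add_mem h7 h7
      · have h7 : c ∈ K := by
          have := K.sub_mem h6 h5
          rwa [add_sub_cancel_left] at this
        exact K.add_mem h7 h7
    have hun := card_union_of_disjoint hdis
    have hsub : (u.filter fun i => (id i : G) - c ∈ K ∨ id i + c ∈ K) ∪ ins u id K ⊆ u :=
      union_subset (filter_subset _ _) (filter_subset _ _)
    have h5 := card_le_card hsub
    have h6 : Nat.card K ≤ 9 := by omega
    have h7 := hKo K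
    simp only [mem_insert, mem_singleton] at h7
    have h8 : Nat.card K = 9 := by
      rcases h7 with h | h | h | h | h | h <;> omega
    have hins : ins u (id : G → G) K = ∅ := by
      rw [eq_empty_iff_forall_notMem]
      intro i hi
      obtain ⟨hi1, hi2⟩ := mem_filter.1 hi
      exact h3 i (huA hi1) (hK3 K h6 i hi2)
    rw [hins, card_empty, add_zero] at hle
    have h9 : l = 9 := by
      have := card_filter_le u fun i => (id i : G) - c ∈ K ∨ id i + c ∈ K
      omega
    have hp17 : p = 17 := by omega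
    have hcK : c ∉ K := fun h => hcc (K.add_mem h h)
    -- the members fill the coset
    let φ : G → G := fun i => if i - c ∈ K then i else -i
    have hφ : ∀ i ∈ (u.filter fun i => (id i : G) - c ∈ K ∨ id i + c ∈ K), φ i - c ∈ K := by
      intro i hi
      obtain ⟨hi1, hi2⟩ := mem_filter.1 hi
      by_cases h10 : i - c ∈ K
      · change (if i - c ∈ K then i else -i) - c ∈ K
        rw [if_pos h10]
        exact h10
      · change (if i - c ∈ K then i else -i) - c ∈ K
        rw [if_neg h10]
        have h11 := K.neg_mem (hi2.resolve_left h10)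
        rwa [id, neg_add'] at h11
    have hinj : Set.InjOn φ (u.filter fun i => (id i : G) - c ∈ K ∨ id i + c ∈ K) := by
      intro a ha b hb hab
      have ha1 : a ∈ u := (mem_filter.1 ha).1
      have hb1 : b ∈ u := (mem_filter.1 hb).1
      change (if a - c ∈ K then a else -a) = (if b - c ∈ K then b else -b) at hab
      split_ifs at hab with h10 h11 h12
      · exact hab
      · exact absurd (hab ▸ ha1) (hu2 b hb1)
      · exact absurd (hab ▸ hb1) (hu2 a ha1)
      · exact neg_injective hab
    have hcos : (Finset.univ.filter fun x : G => x - c ∈ K).card = 9 := by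
      rw [← h8, Nat.card_eq_fintype_card, Fintype.card_subtype]
      refine card_bij (fun x _ => x - c) (fun x hx => ?_) (fun a _ b _ h => sub_left_injective h)
        fun b hb => ⟨b + c, ?_, add_sub_cancel_right b c⟩
      · exact mem_filter.2 ⟨mem_univ _, (mem_filter.1 hx).2⟩
      · refine mem_filter.2 ⟨mem_univ _, ?_⟩
        rw [add_sub_cancel_right]
        exact (mem_filter.1 hb).2
    have himg : (u.filter fun i => (id i : G) - c ∈ K ∨ id i + c ∈ K).image φ =
        Finset.univ.filter fun x : G => x - c ∈ K := by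
      refine eq_of_subset_of_card_le ?_ ?_
      · intro x hx
        obtain ⟨i, hi, rfl⟩ := mem_image.1 hx
        exact mem_filter.2 ⟨mem_univ _, hφ i hi⟩
      · rw [hcos, card_image_of_injOn hinj]
        omega
    subst hp17
    have h10 := hQk G A K c ⟨hR, hcyc, hn, hp, hM⟩ hs h8 hcK (by
      intro x hx
      have hx1 : x ∈ (u.filter fun i => (id i : G) - c ∈ K ∨ id i + c ∈ K).image φ := by
        rw [himg]
        exact mem_filter.2 ⟨mem_univ _, hx⟩
      obtain ⟨i, hi, rfl⟩ := mem_image.1 hx1
      have hi1 : i ∈ A := huA (mem_filter.1 hi).1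
      change (if i - c ∈ K then i else -i) ∈ A
      split_ifs
      · exact hi1
      · exact hs i hi1)
    have := hT92.1
    omega
  have hNu : 2 * (FS u (id : G → G)).card ≤ Nat.card G := by
    rw [hn]
    rcases hpl with ⟨rfl, rfl⟩ | ⟨rfl, rfl⟩ <;> omega
  have hNl : l * l + 2 * l ≤ Nat.card G := by
    rw [hn]
    rcases hpl with ⟨rfl, rfl⟩ | ⟨rfl, rfl⟩ <;> norm_num
  rcases Qs_C2N l (by omega) G G u id hR hcyc hul hAE hXA hgen hDC hSep hNu hNl with h | h | h
  · omega
  · obtain ⟨K, a, hKc, hKi, -⟩ := h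
    obtain ⟨i, hi⟩ := card_pos.1 (by omega : 0 < (ins u (id : G → G) K).card)
    obtain ⟨hi1, hi2⟩ := mem_filter.1 hi
    exact h3 i (huA hi1) (hK3 K (by omega) i hi2)
  · obtain ⟨K, -, h5, -⟩ := h
    omega

end Pool.Agent.SDQ
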