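import Pool.Agent.SDQ.St
import Pool.Agent.SSF.Fin

/-!
# SDQ, module Qv: averaging with growth
-/

set_option autoImplicit false

noncomputable section

open Finset Pool.Agent.Helper64.Rho Pool.Agent.SDG Pool.Agent.MDR Pool.Agent.SSC Pool.Agent.SSE Pool.Agent.SSF Pool.Agent.SNW
open scoped Classical Pointwise

namespace Pool.Agent.SDQ

private lemma Qv_lam {G : Type} [AddCommGroup G] (X D : Finset G) (j : ℕ)
    (hD : ∀ y ∈ D, lam X y ≤ j) (i : ℕ) : ∀ y ∈ it D i, lam X y ≤ i * j := by
  induction i with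
  | zero =>
    intro y hy
    have h : y = 0 := by simpa [it] using hy
    rw [h, lam_zero]
    exact Nat.zero_le _
  | succ i ih =>
    intro y hy
    change y ∈ it D i + D at hy
    obtain ⟨a, ha, b, hb, rfl⟩ := mem_add.1 hy
    refine (lam_add X a b).trans ?_
    have h1 := ih a ha
    have h2 := hD b hb
    rw [add_mul, one_mul]
    omega

private lemma Qv_cnt {G : Type} [AddCommGroup G] [Fintype G] (X D : Finset G) (j : ℕ)
    (hD : ∀ y ∈ D, lam X y ≤ j) (i v : ℕ) (h : i * j ≤ v) : (it D i).card ≤ cnt X v := by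
  unfold cnt
  refine card_le_card fun y hy => ?_
  rw [mem_filter]
  exact ⟨mem_univ _, (Qv_lam X D j hD i y hy).trans h⟩

theorem thm_Qv : St_Qv := by
  intro G _ _ X D J j h0 hsym hgen hJ _ hlam hno
  have := Fintype.ofFinite G
  have hgr : ∀ i : ℕ, min (Nat.card G) (2 * i * J + 1) ≤ (it D i).card := by
    intro i
    by_contra hlt
    rw [not_le, lt_min_iff] at hlt
    obtain ⟨H, hH, y, hy, hy0, hyH⟩ := all_Gr G D J i h0 hsym hgen hJ hlt.2 hlt.1
    exact hy0 (hno H hH y hy hyH)
  rw [← sum_cnt X]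
  refine sum_le_sum fun v _ => ?_
  exact (hgr (v / j)).trans (Qv_cnt X D j hlam (v / j) v (Nat.div_mul_le_self v j))

end Pool.Agent.SDQ
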